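import Pool.Agent.MBX.Defs
import Pool.Agent.Helper49_Pauli.SelfEn

/-!
# FTU (MP_8cfbae_mp): the self-energy is at most of order `cut^(4/3 + eps)`, definitions

Trial state: a classical magnetic flux tube of cross section `O(1)` and length `l` (scaled units: unit
cutoff) with a strong field; the electron sits in the lowest Landau level and the residual field is
removed to all orders of a small parameter `eta` by a formal power series in the jets of the field on
the axis of the tube.
-/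

set_option autoImplicit false

open MeasureTheory Complex ProbabilityTheory MvPolynomial

noncomputable section

namespace Pool.Agent.FTU

open Pool.Agent.Helper49_Pauli
open Pool.Agent.MBX
open Pool.Agent.Loc (γn PB)

/-! ### the algebra of jets -/

/-- The variables: the small parameter, `zeta`, its conjugate, and the jets of the field on the axis:
`jet c p q r` stands for `d_1^p d_2^q d_3^r a_c (0, 0, z)`. -/
inductive Var : Type
  | eta
  | z
  | zb
  | jet (c : Fin 3) (p q r : ℕ)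
  deriving DecidableEq

/-- Polynomials in the variables. -/
abbrev RR : Type := MvPolynomial Var ℂ

/-- The small parameter. -/
def xe : RR := X Var.eta

/-- The variable `zeta`. -/
def xz : RR := X Var.z

/-- The variable `conj zeta`. -/
def xb : RR := X Var.zb

/-- The derivative with respect to `zeta`. -/
def dz : Derivation ℂ RR RR := pderiv Var.z

/-- The derivative with respect to `conj zeta`. -/
def db : Derivation ℂ RR RR := pderiv Var.zb

/-- The derivative along the axis. -/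
def dt : Derivation ℂ RR RR := mkDerivation ℂ fun v =>
  match v with
  | Var.jet c p q r => X (Var.jet c p q (r + 1))
  | _ => 0

/-- Exchange `zeta` and `conj zeta`. -/
def sw : Var → Var
  | Var.z => Var.zb
  | Var.zb => Var.z
  | v => v

/-- Complex conjugation (the small parameter and the jets are real). -/
def cj : RR →+* RR := (rename sw : RR →ₐ[ℂ] RR).toRingHom.comp (MvPolynomial.map (starRingEnd ℂ))

/-- The polynomials which do not contain `zeta`. -/
def Jz : Subalgebra ℂ RR := supported ℂ {v | v ≠ Var.z}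

/-- The polynomials in the small parameter and the jets only. -/
def Jt : Subalgebra ℂ RR := supported ℂ {v | v ≠ Var.z ∧ v ≠ Var.zb}

/-- `|zeta|^2 / 2 - 1`. -/
def w0 : RR := C (1 / 2) * xz * xb - 1

/-- The first transversal coordinate. -/
def x1 : RR := C (1 / 2) * (xz + xb)

/-- The second transversal coordinate. -/
def x2 : RR := C (-(I / 2)) * (xz - xb)

/-- The Taylor polynomial (degree `< M`) of the component `c` of the field. -/
def TT (M : ℕ) (c : Fin 3) : RR := ∑ p ∈ Finset.range M, ∑ q ∈ Finset.range M,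
  if p + q < M then C ((1 / ((p.factorial : ℂ) * q.factorial))) * xe ^ (2 * (p + q)) * x1 ^ p * x2 ^ q *
    X (Var.jet c p q 0) else 0

/-- `eta^2` times the Dirac operator, first component. -/
def D1 (M : ℕ) (eps u f : RR) : RR :=
  C (-(2 * I)) * dz f + xe * w0 * u +
    xe ^ 2 * (C (-I) * dt u - eps * u + TT M 2 * u + (TT M 0 - C I * TT M 1) * f)

/-- `eta^2` times the Dirac operator, second component. -/
def D2 (M : ℕ) (eps u f : RR) : RR :=
  C I * (xz * u - 2 * db u) - xe * w0 * f -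
    xe ^ 2 * (C (-I) * dt f - eps * f + TT M 2 * f) + xe ^ 2 * (TT M 0 + C I * TT M 1) * u

/-! ### evaluation -/

/-- The values of the variables. -/
def pt (et : ℝ) (J : Fin 3 → ℕ → ℕ → ℕ → ℝ) (ze : ℂ) : Var → ℂ
  | Var.eta => (et : ℂ)
  | Var.z => ze
  | Var.zb => (starRingEnd ℂ) ze
  | Var.jet c p q r => (J c p q r : ℂ)

/-- The absolute value of the jet with index `v` (0 if `v` is not a jet). -/
def ja (J : Fin 3 → ℕ → ℕ → ℕ → ℝ) (v : Var) : ℝ :=
  match v with
  | Var.jet c p q r => |J c p q r|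
  | _ => 0

/-- Evaluation of a polynomial. -/
def ev (et : ℝ) (J : Fin 3 → ℕ → ℕ → ℕ → ℝ) (ze : ℂ) (P : RR) : ℂ := MvPolynomial.eval (pt et J ze) P

/-! ### a system of field modes -/

/-- Momenta, polarizations, phases, amplitudes and energies of the modes (scaled units). -/
structure Sys (ι : Type) where
  /-- momenta -/
  k : ι → X3
  /-- polarizations -/
  e : ι → X3
  /-- phases -/
  t : ι → ℝ
  /-- amplitudes -/
  c : ι → ℝ
  /-- energies -/
  w : ι → ℝ

/-- The jets of the ideal background field `(b/2)(-x_2, x_1, 0) + g |x|^2/2 e_3`, `b = et^(-4)`,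
`g = et^(-5)`. -/
def idl (et : ℝ) (c : Fin 3) (p q r : ℕ) : ℝ :=
  if r = 0 then
    if c = 0 ∧ p = 0 ∧ q = 1 then -((et ^ 4)⁻¹ / 2)
    else if c = 1 ∧ p = 1 ∧ q = 0 then (et ^ 4)⁻¹ / 2
    else if c = 2 ∧ p = 2 ∧ q = 0 then (et ^ 5)⁻¹
    else if c = 2 ∧ p = 0 ∧ q = 2 then (et ^ 5)⁻¹
    else 0
  else 0

/-- The scaled transversal position `zeta = (x_1 + i x_2) / et^2`. -/
def zt (et : ℝ) (x : X3) : ℂ := ((x 0 : ℂ) + I * (x 1 : ℂ)) / (et : ℂ) ^ 2

/-- The lowest Landau level Gaussian `exp (- |zeta|^2 / 4)`. -/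
def gs (et : ℝ) (x : X3) : ℝ := Real.exp (-((x 0 ^ 2 + x 1 ^ 2) / (4 * et ^ 4)))

namespace Sys

variable {ι : Type} (S : Sys ι)

/-- The jets of the field of the mode `i` on the axis. -/
def jm (i : ι) (c : Fin 3) (p q r : ℕ) (z : ℝ) : ℝ :=
  S.c i * S.e i c * S.k i 0 ^ p * S.k i 1 ^ q * S.k i 2 ^ r *
    Real.cos (S.k i 2 * z - S.t i + ((p + q + r : ℕ) : ℝ) * (Real.pi / 2))

/-- The jet of the mode `i` with the index `v` (0 if `v` is not a jet). -/
def jv (i : ι) (v : Var) (z : ℝ) : ℝ :=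
  match v with
  | Var.jet c p q r => S.jm i c p q r z
  | _ => 0

/-- The remainder of the Taylor formula (degree `< M`, transversal directions) for the mode `i`. -/
def rm (M : ℕ) (i : ι) (x : X3) (c : Fin 3) : ℝ :=
  S.c i * Real.cos (dot (S.k i) x - S.t i) * S.e i c -
    ∑ p ∈ Finset.range M, ∑ q ∈ Finset.range M,
      if p + q < M then x 0 ^ p * x 1 ^ q / ((p.factorial : ℝ) * q.factorial) * S.jm i c p q 0 (x 2) else 0

variable [Fintype ι]

/-- The vector potential (times the coupling) at the field configuration `y`. -/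
def fld (y : ι → ℝ) (x : X3) : X3 := fun j =>
  ∑ i, y i * (S.c i * Real.cos (dot (S.k i) x - S.t i) * S.e i j)

/-- The jets of the field minus the ideal background on the axis. -/
def jt (et : ℝ) (y : ι → ℝ) (z : ℝ) (c : Fin 3) (p q r : ℕ) : ℝ :=
  (∑ i, y i * S.jm i c p q r z) - idl et c p q r

/-- The value of a polynomial at the field configuration `y` and the position `x`. -/
def pol (et : ℝ) (P : RR) (y : ι → ℝ) (x : X3) : ℂ := ev et (S.jt et y (x 2)) (zt et x) P

/-- The phase of the trial function. -/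
def Th (et : ℝ) (eps : RR) (y : ι → ℝ) (z : ℝ) : ℝ :=
  z / et + ∫ s in (0 : ℝ)..z, (ev et (S.jt et y s) 0 eps).re

/-- The trial function. -/
def tri (et : ℝ) (eps u f : RR) (ch : X3 → ℝ) (y : ι → ℝ) (x : X3) : S2 :=
  (cexp (-(I * (S.Th et eps y (x 2) : ℂ))) * ((ch x * gs et x : ℝ) : ℂ)) •
    ![S.pol et u y x, S.pol et f y x]

/-- The properties of the modes which are used. -/
structure Good (K ell : ℝ) : Prop where
  k1 : ∀ i j, |S.k i j| ≤ 1
  e1 : ∀ i j, |S.e i j| ≤ 1
  w0 : ∀ i, 0 < S.w i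
  w1 : ∀ i, S.w i ≤ 1
  cw : ∑ i, S.c i ^ 2 / S.w i ≤ K
  bes : ∀ (g : ℝ → ℝ) (a b : ℝ), Continuous g → a ≤ b → b - a ≤ ell →
    ∑ i, S.w i * S.c i ^ 2 * ‖∫ s in a..b, (g s : ℂ) * cexp (I * ((S.k i 2 * s : ℝ) : ℂ))‖ ^ 2 ≤
      K * ∫ s in a..b, g s ^ 2

/-- The displacement `e` produces the ideal background field up to `O(1)` on `|z| ≤ l`, with field
energy `≤ cost`. -/
def Bg (et l K cost : ℝ) (n : ℕ) (e : ι → ℝ) : Prop :=
  ∑ i, S.w i * e i ^ 2 ≤ cost ∧ ∀ (c : Fin 3) (p q r : ℕ), p + q + r ≤ n → ∀ z : ℝ, |z| ≤ l →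
    |(∑ i, e i * S.jm i c p q r z) - idl et c p q r| ≤ K

end Sys

/-- The conditions on the cutoff function. -/
structure Bump (bp : X3 → ℝ) (CB : ℝ) : Prop where
  smooth : ContDiff ℝ (⊤ : ℕ∞) bp
  nonneg : ∀ x, 0 ≤ bp x
  le_one : ∀ x, bp x ≤ 1
  one : ∀ x, (∀ j, |x j| ≤ 1 / 2) → bp x = 1
  zero : ∀ x, (∃ j, 1 ≤ |x j|) → bp x = 0
  der : ∀ x j, |pd j bp x| ≤ CB

/-- The cutoff function at scale `l`. -/
def sc (bp : X3 → ℝ) (l : ℝ) (x : X3) : ℝ := bp (l⁻¹ • x)

/-- The indicator of the cube of side `2 l`. -/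
def cube (l : ℝ) (x : X3) : ℝ := if ∀ j, |x j| ≤ l then 1 else 0

/-! ### the classes of trial functions -/

section wave

variable {ι : Type} [Fintype ι] [DecidableEq ι]

variable (ι) in
/-- The span of the functions polynomial in `y` times smooth in `x`. -/
def PS : Submodule ℂ ((ι → ℝ) → X3 → ℂ) :=
  Submodule.span ℂ {h | ∃ (P : MvPolynomial ι ℂ) (f : X3 → ℂ), ContDiff ℝ (⊤ : ℕ∞) f ∧ h = Gen P f}

/-- Trial functions: a phase times a function of the class `WW`. -/
def TC (psi : (ι → ℝ) → X3 → S2) : Prop :=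
  ∃ (th : (ι → ℝ) → X3 → ℝ) (F : (ι → ℝ) → X3 → S2), (fun y x => (th y x : ℂ)) ∈ PS ι ∧ WW F ∧
    psi = fun y x => cexp (-(I * (th y x : ℂ))) • F y x

/-- The density of the coherent state with displacement `e`, relative to the vacuum. -/
def gz (e y : ι → ℝ) : ℝ := Real.exp ((∑ i, y i * e i) / 2 - (∑ i, e i ^ 2) / 4)

/-- The displaced trial function. -/
def dsp (e : ι → ℝ) (psi : (ι → ℝ) → X3 → S2) (y : ι → ℝ) (x : X3) : S2 :=
  (gz e y : ℂ) • psi (fun i => y i - e i) x

/-- The distance (squared, with all derivatives) of the displaced trial function from a wave function. -/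
def Hd {cut L : ℝ} (alpha : ℝ) (P : Polarization L) (e : Mode cut L → ℝ)
    (psi Psi : (Mode cut L → ℝ) → X3 → S2) (y : Mode cut L → ℝ) (x : X3) : ℝ :=
  nsq (dsp e psi y x - Psi y x) +
    nsq (dop (VV alpha P y) (dsp e psi y) x - DD alpha P Psi y x) +
    ∑ i, om i * nsq (dY2 i (dsp e psi) y x - dY2 i Psi y x)

/-- Continuous functions of exponential growth. -/
def EG (f : (ι → ℝ) → ℂ) : Prop :=
  Continuous f ∧ ∃ C : ℝ, ∀ y, ‖f y‖ ≤ C * Real.exp (C * ∑ i, |y i|)

/-- Evaluation of a polynomial at a real point. -/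
def pe (P : MvPolynomial ι ℂ) (y : ι → ℝ) : ℂ := MvPolynomial.eval (fun i => ((y i : ℝ) : ℂ)) P

/-- The projection onto the span of the polynomials `b j`. -/
def pr {d : ℕ} (b : Fin d → MvPolynomial ι ℂ) (f : (ι → ℝ) → ℂ) (y : ι → ℝ) : ℂ :=
  ∑ j, pe (b j) y * ∫ y', (starRingEnd ℂ) (pe (b j) y') * f y' ∂(γn ι)

end wave

/-! ### the modes of the box -/

/-- The modes of the box in scaled units. -/
def msys {cut L : ℝ} (alpha : ℝ) (P : Polarization L) : Sys (Mode cut L) where
  k := fun i j => kk i j / cut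
  e := fun i => P.e i.1 i.2
  t := tt
  c := fun i => Real.sqrt alpha * am i / cut
  w := fun i => om i / cut

/-! ### trigonometric polynomials -/

/-- `f` is a trigonometric polynomial of period `ell` and degree `≤ K`, the sum of the squares of its
coefficients is `≤ B`. -/
def TP (ell : ℝ) (K : ℕ) (B : ℝ) (f : ℝ → ℝ) : Prop :=
  ∃ p : ℤ → ℂ, (∀ s, (f s : ℂ) = ∑ n ∈ Finset.Icc (-(K : ℤ)) K,
    p n * cexp (I * ((2 * Real.pi / ell * n * s : ℝ) : ℂ))) ∧
    ∑ n ∈ Finset.Icc (-(K : ℤ)) K, ‖p n‖ ^ 2 ≤ B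

/-- The normalised Dirichlet kernel. -/
def dk (ell : ℝ) (M : ℕ) (s : ℝ) : ℝ :=
  (∑ n ∈ Finset.Icc (-(M : ℤ)) M, Real.cos (2 * Real.pi / ell * n * s)) / (2 * M + 1)

/-- The periodic replacement of the function `s`. -/
def ss (ell s : ℝ) : ℝ := ell / (2 * Real.pi) * Real.sin (2 * Real.pi / ell * s)

/-- The vector potential of the background: `curl` of it is the flux tube. -/
def vps (b g : ℝ) (p0 p2 p3 q : ℝ → ℝ) (x : X3) : X3 :=
  ![-(g / 6) * (p0 (x 0) * p3 (x 1) * q (x 2)), g / 6 * (p3 (x 0) * p0 (x 1) * q (x 2)),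
    -(b / 4) * (p2 (x 0) * p0 (x 1) * q (x 2) + p0 (x 0) * p2 (x 1) * q (x 2))]

/-- The localised periodic replacement of the function `s^m`. -/
def pf (ell : ℝ) (M m : ℕ) (s : ℝ) : ℝ := ss ell s ^ m * dk ell M s ^ 4

end Pool.Agent.FTU
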