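import Pool.Agent.FTU.Defs

/-!
# FTU (MP_8cfbae_mp): statements

THEOREM.  For every coupling `alpha > 0` and every `eps > 0` there is `C` such that
`E_0 ≤ C cut^(4/3 + eps)` for all cutoffs `cut ≥ 1`, all boxes of side `L ≥ 1`, all polarization vectors
and all representations (`UpperStatement (4 / 3 + eps)`; landed before: `46/31`).

IDEA.  Scaled units `x -> cut x`, `N = cut`, box of side `ell = L cut ≥ N`, momenta `|k| < 1`.  One needs
`inf [ (N/2) |D psi|^2 + sum w_i |d_i psi|^2 + (1/2) sum w_i e_i^2 |psi|^2 ] / |psi|^2 ≤ C N^(1/3 + eps)`,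
where `e` is the displacement of a coherent state which produces a flux tube of length
`l = N^(1/3)` with the strong field `A = (b/2)(-x_2, x_1, 0) + g |x|^2/2 e_3`, `b = eta^(-4)`,
`g = eta^(-5)`, `eta = N^(-delta)`.  The wave function is
`exp(-i Theta(y, z)) chi(x / l) exp(-|zeta|^2/4) (u, f)`, `zeta = (x_1 + i x_2) / eta^2`, where `(u, f)`
is a polynomial in `eta, zeta, conj zeta` and the jets of the field on the axis, constructed so that
`D psi = O(eta^M)` (ALG), and `Theta = z / eta + int_0^z eps`, `eps` a REAL polynomial in the jets.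
Costs: `N / l^2` (cutoff), `sum w_i |d_i Theta|^2 ≤ C l` (Bessel inequality),
`sum w_i e_i^2 ≤ C eta^(-37) l` (the classical field).

Conventions.  Every row: `theorem xxx (hypotheses = the rows in 'uses', in this order) : XxxStmt`.
The rows of MBX are proved (table mbx gives file and full name); a row marked MBX:XXX is used by
importing its file, it is not a hypothesis.
-/

set_option autoImplicit false

open MeasureTheory Complex ProbabilityTheory

namespace Pool.Agent.FTU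

open Pool.Agent.Helper49_Pauli
open Pool.Agent.MBX
open Pool.Agent.Loc (γn PB)

/-! ## A. algebra of the formal solution -/

/-- CJA (uses: none).  Complex conjugation of polynomials.
Proof: `cj` is a ring homomorphism; every identity `cj (d P) = d' (cj P)` by
`MvPolynomial.induction_on` (constants, sums, products with a variable, Leibniz rule of the
derivations; on variables check the cases).  `C` of a complex number goes to `C` of the conjugate;
`cj x2 = x2` because `conj (-(I/2)) = I/2` and the factor `xz - xb` changes sign. -/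
def CjaStmt : Prop :=
  (∀ P, cj (cj P) = P) ∧ (∀ a : ℂ, cj (MvPolynomial.C a) = MvPolynomial.C ((starRingEnd ℂ) a)) ∧
  cj xe = xe ∧ cj xz = xb ∧ cj xb = xz ∧
  (∀ (c : Fin 3) (p q r : ℕ), cj (MvPolynomial.X (Var.jet c p q r)) = MvPolynomial.X (Var.jet c p q r)) ∧
  (∀ P, cj (dz P) = db (cj P)) ∧ (∀ P, cj (db P) = dz (cj P)) ∧ (∀ P, cj (dt P) = dt (cj P)) ∧
  cj w0 = w0 ∧ cj x1 = x1 ∧ cj x2 = x2 ∧ ∀ (M : ℕ) (c : Fin 3), cj (TT M c) = TT M c

/-- CJB (uses: none).  The subalgebras and the derivations.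
Proof: `MvPolynomial.supported` is `Algebra.adjoin` of the variables: `Algebra.adjoin_induction`
(`MvPolynomial.supported_eq_adjoin_X`), Leibniz rule; `Jt ≤ Jz` is `supported_mono`.  `mkDerivation_X`,
`pderiv_X`.  Cancellation: `xe ^ m * P = xe ^ m * Q → P = Q` since `RR` is a domain and `xe ≠ 0`;
`xe ^ m * P ∈ Jt → P ∈ Jt`: `vars (xe ^ m * P)` contains `vars P` (`MvPolynomial.vars_mul_eq`-type
lemma in a domain, or: `zeta` and `conj zeta` degrees `degreeOf` add). -/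
def CjbStmt : Prop :=
  (∀ P ∈ Jt, cj P ∈ Jt ∧ dt P ∈ Jt ∧ dz P = 0 ∧ db P = 0) ∧ (∀ P ∈ Jz, dz P = 0) ∧
  (∀ P ∈ Jt, P ∈ Jz) ∧ xe ∈ Jt ∧ xb ∈ Jz ∧
  (∀ (c : Fin 3) (p q r : ℕ), MvPolynomial.X (Var.jet c p q r) ∈ Jt) ∧
  dt xe = 0 ∧ dt xz = 0 ∧ dt xb = 0 ∧ dz xe = 0 ∧ db xe = 0 ∧ dz xz = 1 ∧ dz xb = 0 ∧ db xz = 0 ∧
  db xb = 1 ∧ (∀ (m : ℕ) (P Q : RR), xe ^ m * P = xe ^ m * Q → P = Q) ∧
  ∀ (m : ℕ) (P : RR), xe ^ m * P ∈ Jt → P ∈ Jt

/-- SLV (uses: CJB).  One step of the formal perturbation theory.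
Proof.  `f`: an antiderivative of `s / (2 I)` in `zeta` (linear on monomials).  For the second equation
by linearity over monomials `t = m xz^a xb^j`, `m` in the other variables (`m ∈ Jt`, `dz m = db m = 0`,
everything is multiplied by `m`): induction on `a`.  `a ≥ 1`: `u_1 = I xz^(a-1) xb^j` gives
`I (xz u_1 - 2 db u_1) + xz^a xb^j = 2 j xz^(a-1) xb^(j-1)` (`0` if `j = 0`).  `a = 0`: `j = 0`: `u = 0`,
`b = 0`, `c = 1`; `j ≥ 1`: `b = xb^j / j`, `u = xb^(j+1) / (2 j I)`, `c = 0`: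
`I (xz u - 2 db u) = xz xb^(j+1) / (2 j) - (j + 1) xb^j / j` and
`w0 b = xz xb^(j+1) / (2 j) - xb^j / j`. -/
def SlvStmt : Prop :=
  ∀ s t : RR, ∃ u f b c : RR, b ∈ Jz ∧ c ∈ Jt ∧ MvPolynomial.C (-(2 * I)) * dz f + s = 0 ∧
    MvPolynomial.C I * (xz * u - 2 * db u) - w0 * b + t = c

/-- FRM (uses: CJB, SLV).  The formal solution (with complex `eps`).
Proof: induction on `m` (`M` fixed).  `m = 0`: `u = xe u1`, `u1 = -(I/2) xb`, `f = 1`, `eps = 0`:
`D1 = xe^2 (w0 u1 + ...)`, `D2 = xe (w0 - w0) + xe^2 (...)` because `I (xz u1 - 2 db u1) = w0`.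
Step: given `D1 = xe^(m+2) s`, `D2 = xe^(m+2) t`, take `u', f', b, c` of SLV for `s, t` and put
`unew = u + xe^(m+2) u'`, `fnew = f + xe^(m+1) b + xe^(m+2) f'`, `epsnew = eps - xe^m c`.
`D1, D2` are linear in `(u, f)` for fixed `eps`, and `D1 M epsnew u f = D1 M eps u f + xe^(m+2) c u`,
`D2 M epsnew u f = D2 M eps u f - xe^(m+2) c f`.  Modulo `xe^(m+3)`:
`D1 M eps 0 b = -2I dz b + xe^2 .. = xe^2 ..` (`dz b = 0`), `D2 M eps 0 b = - xe w0 b + xe^2 ..`,
`D1 M eps u' f' = -2I dz f' + xe ..`, `D2 M eps u' f' = I (xz u' - 2 db u') + xe ..`, `c unew = xe ..`,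
`c fnew = c + xe ..`; the sum is `xe^(m+2) (s - 2I dz f') = 0` and
`xe^(m+2) (t - w0 b + I (xz u' - 2 db u') - c) = 0`. -/
def FrmStmt : Prop :=
  ∀ M m : ℕ, ∃ u f eps r1 r2 g h : RR, eps ∈ Jt ∧ u = xe * g ∧ f = 1 + xe * h ∧
    D1 M eps u f = xe ^ (m + 2) * r1 ∧ D2 M eps u f = xe ^ (m + 2) * r2

/-- The properties of the Gaussian integral over `zeta` (weight `exp (-|zeta|^2/2) / (2 pi)`). -/
structure GF (G : RR →ₗ[ℂ] RR) : Prop where
  mem : ∀ P, G P ∈ Jt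
  mul : ∀ a ∈ Jt, ∀ P, G (a * P) = a * G P
  one : G 1 = 1
  gz : ∀ P, 2 * G (dz P) = G (xb * P)
  gb : ∀ P, 2 * G (db P) = G (xz * P)
  gt : ∀ P, G (dt P) = dt (G P)
  gc : ∀ P, G (cj P) = cj (G P)

/-- GFN (uses: CJA, CJB).  The Gaussian functional exists: `G (m xz^a xb^j) = 0` if `a ≠ j` and
`2^a a! m` if `a = j`, for monomials `m` in the other variables.
Proof: define `G` on the basis of monomials (`MvPolynomial.basisMonomials`, `Basis.constr`, or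
`Finsupp.lsum`): `monomial s 1 ↦ if s z = s zb then (2^(s z) (s z)!) monomial (s with z, zb erased) 1 else 0`.
Each property is linear in `P` (`mul` also in `a`), so check it on monomials:
`gz`: `P = m xz^a xb^j`: `2 a G(m xz^(a-1) xb^j)` and `G(m xz^a xb^(j+1))` are both `0` unless `a = j + 1`,
then `2 a 2^j j! = 2^a a!`. -/
def GfnStmt : Prop := ∃ G : RR →ₗ[ℂ] RR, GF G

/-- SYM (uses: CJA, CJB).  The formal operator is symmetric, up to the current.
Proof: write `(a, b) = G (cj a_1 * b_1 + cj a_2 * b_2)` for spinors.  `(phi, T_0 phi)`,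
`T_0 (u, f) = (-2I dz f, I (xz u - 2 db u))`, is self conjugate: `G (cj u * (-2I dz f)) =
-I G (xb cj u f) + 2I G (dz (cj u) f)` (Leibniz and `gz`) is the conjugate of
`G (cj f * I (xz u - 2 db u))` (`cj (db u) = dz (cj u)`).  The terms with `w0`, `TT M c` are multiplications
by hermitian matrices of `cj`-invariant polynomials.  `xe^2 C(-I) dt` with the matrix `diag (1, -1)`:
the difference with the conjugate is `-I xe^2 dt (G (cj u u) - G (cj f f)) = I xe^2 dt j`; the term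
`- xe^2 eps diag (1, -1)` gives `xe^2 (eps - cj eps) j`. -/
def SymStmt : Prop :=
  ∀ G : RR →ₗ[ℂ] RR, GF G → ∀ (M : ℕ) (eps u f : RR), eps ∈ Jt →
    G (cj u * D1 M eps u f + cj f * D2 M eps u f) - cj (G (cj u * D1 M eps u f + cj f * D2 M eps u f)) =
      xe ^ 2 * (MvPolynomial.C I * dt (G (cj f * f) - G (cj u * u)) +
        (eps - cj eps) * (G (cj f * f) - G (cj u * u))) ∧
    cj (G (cj f * f) - G (cj u * u)) = G (cj f * f) - G (cj u * u)

/-- NRM (uses: CJA, CJB).  The inverse square root of the norm, up to order `M`.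
Proof: induction on `M` with `r ∈ Jt`, `cj r = r` in addition (start `M = 0, 1` with `kap = 1`).  If
`kap^2 j = 1 + xe^M r`, `M ≥ 1`, then `kap' = kap (1 - (1/2) xe^M r)` satisfies
`kap'^2 j = (1 + xe^M r)(1 - xe^M r + (1/4) xe^(2M) r^2) = 1 + xe^(2M) (-(3/4) r^2 + (1/4) xe^M r^3)`. -/
def NrmStmt : Prop :=
  ∀ (M : ℕ) (j k : RR), j ∈ Jt → k ∈ Jt → cj k = k → j = 1 + xe * k → ∃ kap k' r : RR, kap ∈ Jt ∧ cj kap = kap ∧
    r ∈ Jt ∧ kap = 1 + xe * k' ∧ kap ^ 2 * j = 1 + xe ^ M * r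

/-- ALG (uses: CJA, CJB, FRM, GFN, SYM, NRM).  The formal solution with REAL `eps`.
Proof: FRM with `m = M`: `u, f, eps`.  `E := G (cj u D1 + cj f D2) = xe^(M+2) rho0`, so by SYM,
cancelling `xe^2` (CJB): `C I dt j + (eps - cj eps) j = xe^M rho`, `j = 1 + xe k` (`G (cj f f) - G (cj u u)`,
`xe` comes out of `G`; `k ∈ Jt`, `cj k = k` by CJB).  Put `eR = C(1/2)(eps + cj eps)`,
`eI = C(-(I/2)) (eps - cj eps)`, both `cj`-invariant, `eps = eR + C I eI`.  So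
`dt j = -2 eI j - C I xe^M rho`.  NRM: `kap^2 j = 1 + xe^M r`; apply `dt` and multiply by `kap`:
`2 (1 + xe^M r) dt kap + kap^3 (-2 eI j - C I xe^M rho) = xe^M kap dt r`, hence
`dt kap = kap eI + xe^M rho'`.  The new solution is `kap u, kap f, eR`:
`D1 M eR (kap u) (kap f) = kap D1 M eps u f + xe^2 (C(-I) u dt kap + (eps - eR) kap u)
= kap xe^(M+2) r1 - C I xe^(M+2) rho' u`, the same for `D2`.  (`dz kap = db kap = 0`.) -/
def AlgStmt : Prop :=
  ∀ M : ℕ, ∃ u f eps r1 r2 g h : RR, eps ∈ Jt ∧ cj eps = eps ∧ u = xe * g ∧ f = 1 + xe * h ∧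
    D1 M eps u f = xe ^ M * r1 ∧ D2 M eps u f = xe ^ M * r2

/-! ## B. evaluation of the polynomials -/

/-- EVR (uses: CJA).  Evaluation: conjugation, independence of `zeta`, reality, the Taylor polynomial.
Proof: `ev (cj P) = conj (ev P)` by induction on `P`; for `P ∈ Jt` `MvPolynomial.eval₂_congr`-type lemma
(or `adjoin_induction`); `ev x1 = x_0 / et^2`, `ev x2 = x_1 / et^2` at `zeta = zt et x`. -/
def EvrStmt : Prop :=
  (∀ et J ze P, ev et J ze (cj P) = (starRingEnd ℂ) (ev et J ze P)) ∧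
  (∀ et J ze ze' P, P ∈ Jt → ev et J ze P = ev et J ze' P) ∧
  (∀ et J ze P, P ∈ Jt → cj P = P → ev et J ze P = (((ev et J 0 P).re : ℝ) : ℂ)) ∧
  ∀ (M : ℕ) (c : Fin 3) (et : ℝ) (J : Fin 3 → ℕ → ℕ → ℕ → ℝ) (x : X3), et ≠ 0 →
    ev et J (zt et x) (TT M c) = ((∑ p ∈ Finset.range M, ∑ q ∈ Finset.range M,
      if p + q < M then x 0 ^ p * x 1 ^ q / ((p.factorial : ℝ) * q.factorial) * J c p q 0 else 0 : ℝ) : ℂ)

/-- EVX (uses: none).  The derivatives of `pol` in space.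
Proof: `MvPolynomial.induction_on P`; for a variable: `eta` constant, `z`, `zb`: linear functions of `x`,
`jet c p q r`: a function of `x 2` with derivative `jet c p q (r+1)` (`d/dz jm i c p q r z =
jm i c p q (r+1) z` as `-sin t = cos (t + pi/2)`, `idl` does not depend on `z` and is `0` for `r + 1`);
products: Leibniz rule on both sides. -/
def EvxStmt : Prop :=
  ∀ (ι : Type) [Fintype ι] (S : Sys ι) (et : ℝ), et ≠ 0 → ∀ (P : RR) (y : ι → ℝ),
    ContDiff ℝ (⊤ : ℕ∞) (S.pol et P y) ∧ ∀ x : X3,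
      fderiv ℝ (S.pol et P y) x (Pi.single 0 1) = S.pol et (dz P + db P) y x / (et : ℂ) ^ 2 ∧
      fderiv ℝ (S.pol et P y) x (Pi.single 1 1) = I * S.pol et (dz P - db P) y x / (et : ℂ) ^ 2 ∧
      fderiv ℝ (S.pol et P y) x (Pi.single 2 1) = S.pol et (dt P) y x

/-- EVY (uses: none).  The derivative of `pol` in a field coordinate, also with `zeta = 0`.
Proof: chain rule for polynomials (`MvPolynomial.induction_on`, sum over all `v` in a finite set which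
contains the variables; terms outside `vars` vanish, `MvPolynomial.pderiv_eq_zero_of_notMem_vars`);
`d/dy_i jt c p q r = jm i c p q r`. -/
def EvyStmt : Prop :=
  ∀ (ι : Type) [Fintype ι] [DecidableEq ι] (S : Sys ι) (et : ℝ) (P : RR) (y : ι → ℝ) (i : ι) (s : ℝ) (ze : ℂ),
    HasDerivAt (fun t : ℝ => ev et (S.jt et (Function.update y i t) s) ze P)
      (∑ v ∈ P.vars, (S.jv i v s : ℂ) * ev et (S.jt et y s) ze (MvPolynomial.pderiv v P)) (y i)

/-- EVT (uses: EVX, EVY).  The phase `Th`.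
Proof: `s ↦ ev et (S.jt et y s) 0 eps` is continuous (a polynomial of trigonometric functions of `s`);
`intervalIntegral.integral_hasDerivAt_right`; the derivative in `y i` under the integral sign
(`intervalIntegral.hasDerivAt_integral_of_dominated_loc_of_deriv_le`; the derivative is jointly
continuous in `(t, s)`, hence bounded on compact sets), or: expand in powers of `y`. -/
def EvtStmt : Prop :=
  ∀ (ι : Type) [Fintype ι] [DecidableEq ι] (S : Sys ι) (et : ℝ) (eps : RR) (y : ι → ℝ),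
    (∀ P : RR, Continuous fun s : ℝ => (ev et (S.jt et y s) 0 P).re) ∧
    (∀ z : ℝ, HasDerivAt (S.Th et eps y) (1 / et + (ev et (S.jt et y z) 0 eps).re) z) ∧
    ∀ (z : ℝ) (i : ι), HasDerivAt (fun t : ℝ => S.Th et eps (Function.update y i t) z)
      (∫ s in (0 : ℝ)..z, ∑ v ∈ eps.vars, S.jv i v s * (ev et (S.jt et y s) 0 (MvPolynomial.pderiv v eps)).re)
      (y i)

/-- POB (uses: none).  Polynomial bound for the values of a polynomial, `0 ≤ et ≤ 1`.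
Proof: induction on `P` for `∃ C m`, with `∑ v ∈ P.vars` replaced by `∑ v ∈ T` for any finite `T`
containing `P.vars`; monomials are bounded by powers of `1 + ‖ze‖`, `1 + ∑ |J v|`; at the end `T = P.vars`
(or write `P` as the sum of its monomials, `MvPolynomial.eval_eq`). -/
def PobStmt : Prop :=
  ∀ P : RR, ∃ (C : ℝ) (m : ℕ), 0 ≤ C ∧ ∀ (et : ℝ) (J : Fin 3 → ℕ → ℕ → ℕ → ℝ) (ze : ℂ), 0 ≤ et → et ≤ 1 →
    ‖ev et J ze P‖ ≤ C * (1 + ‖ze‖) ^ m * (1 + ∑ v ∈ P.vars, ja J v) ^ m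

/-- RMB (uses: none).  The Taylor remainder of one mode.
Proof: with `b = k_2 x_2 - t`, `s = k_0 x_0 + k_1 x_1`: `|cos (b + s) - ∑ n < M, s^n / n! cos (b + n pi/2)| ≤
|s|^M / M!` (Taylor; all derivatives of `cos` are bounded by 1), and `s^n / n! = ∑ (p + q = n)
(k_0 x_0)^p (k_1 x_1)^q / (p! q!)` (binomial theorem); the double sum over `p, q < M`, `p + q < M` is the sum
over `n < M` and the antidiagonal. -/
def RmbStmt : Prop :=
  ∀ (ι : Type) (S : Sys ι) (i : ι), (∀ j, |S.k i j| ≤ 1) → (∀ j, |S.e i j| ≤ 1) →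
    ∀ (M : ℕ) (x : X3) (c : Fin 3), |S.rm M i x c| ≤ |S.c i| * (|x 0| + |x 1|) ^ M

/-! ## C. the classes of trial functions -/

/-- PSA (uses: none).  The class `PS`.
Proof: span induction as in MBX:SCL; shift in `y`: substitute `X i + C (e i)` in the polynomial; scaling of `x`:
composition with a linear map (`cut ≠ 0` keeps compact supports for `SS`); derivative in space. -/
def PsaStmt : Prop :=
  ∀ (ι : Type) [Fintype ι] [DecidableEq ι],
    (∀ q ∈ PS ι, ∀ r ∈ PS ι, (fun y x => q y x * r y x) ∈ PS ι) ∧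
    (∀ q ∈ PS ι, ∀ r ∈ SS ι, (fun y x => q y x * r y x) ∈ SS ι) ∧
    (∀ g : X3 → ℂ, ContDiff ℝ (⊤ : ℕ∞) g → (fun (_ : ι → ℝ) x => g x) ∈ PS ι) ∧
    (∀ i : ι, (fun (y : ι → ℝ) (_ : X3) => (y i : ℂ)) ∈ PS ι) ∧
    (∀ q ∈ PS ι, ∀ j, (∀ y, ContDiff ℝ (⊤ : ℕ∞) (q y)) ∧ dX j q ∈ PS ι) ∧
    (∀ q ∈ PS ι, ∀ i, dY i q ∈ PS ι ∧
      ∀ y x, HasDerivAt (fun t : ℝ => q (Function.update y i t) x) (dY i q y x) (y i)) ∧
    (∀ (e : ι → ℝ), (∀ q ∈ PS ι, (fun y x => q (fun i => y i + e i) x) ∈ PS ι) ∧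
      ∀ q ∈ SS ι, (fun y x => q (fun i => y i + e i) x) ∈ SS ι) ∧
    (∀ (a : ℝ), a ≠ 0 → (∀ q ∈ PS ι, (fun y x => q y (a • x)) ∈ PS ι) ∧
      ∀ q ∈ SS ι, (fun y x => q y (a • x)) ∈ SS ι) ∧
    ∀ q ∈ PS ι, (Continuous fun z : (ι → ℝ) × X3 => q z.1 z.2) ∧ ∀ R : ℝ, ∃ (C : ℝ) (m : ℕ), 0 ≤ C ∧
      ∀ y x, ‖x‖ ≤ R → ‖q y x‖ ≤ C * ∏ i, (1 + |y i|) ^ m

/-- TCD (uses: PSA).  The class `TC`: regularity, derivatives (same phase), bounds, shift, scaling, and the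
Dirac operator.
Proof: `psi y x s = cexp (-(I th)) * F_s`, `dX j psi_s = cexp (-(I th)) * (dX j F_s - I dX j th * F_s)`, the same
for `dY`; MBX:SDX, MBX:SDY, MBX:SNF, PSA.  `S.fld (y + e)` is a sum of a coordinate of `y` (or a constant) times a
smooth function of `x`.  The bound and the support come from `F`. -/
def TcdStmt : Prop :=
  ∀ (ι : Type) [Fintype ι] [DecidableEq ι] (psi : (ι → ℝ) → X3 → S2), TC psi →
    (∀ y, CS2 (psi y)) ∧
    (∀ j, TC fun y x s => dX j (fun y x => psi y x s) y x) ∧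
    (∀ i, TC (dY2 i psi) ∧ ∀ y x s, HasDerivAt (fun t : ℝ => psi (Function.update y i t) x s)
      (dY2 i psi y x s) (y i)) ∧
    (∀ e : ι → ℝ, TC fun y x => psi (fun i => y i + e i) x) ∧
    (∀ a : ℝ, a ≠ 0 → TC fun y x => psi y (a • x)) ∧
    (∀ (S : Sys ι) (e : ι → ℝ), TC fun y x => dop (S.fld fun i => y i + e i) (psi y) x) ∧
    (Continuous fun z : (ι → ℝ) × X3 => psi z.1 z.2) ∧
    ∃ (C : ℝ) (m : ℕ) (R : ℝ), 0 ≤ C ∧ ∀ y x, (∀ s, ‖psi y x s‖ ≤ C * ∏ i, (1 + |y i|) ^ m) ∧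
      (R ≤ ‖x‖ → psi y x = 0)

/-- NFT (uses: TCD).  The energy densities are nice.
Proof: TCD (last two parts) for `psi`, `dop ..`, `dY2 i psi`; MBX:NFC for sums and products. -/
def NftStmt : Prop :=
  ∀ (ι : Type) [Fintype ι] [DecidableEq ι] (psi : (ι → ℝ) → X3 → S2), TC psi →
    NF (fun y x => nsq (psi y x)) ∧
    (∀ (S : Sys ι) (e : ι → ℝ), NF fun y x => nsq (dop (S.fld fun i => y i + e i) (psi y) x)) ∧
    ∀ w : ι → ℝ, NF fun y x => ∑ i, w i * nsq (dY2 i psi y x)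

/-- TRC (uses: EVX, PSA).  The trial function is of class `TC`.
Proof: `(fun y x => S.pol et P y x) ∈ PS ι` by induction on `P` (`jt` is affine in `y` with smooth
coefficients), `Th ∈ PS`: the integrand is a finite sum of monomials of `y` times continuous functions of `s`
(span induction, or expand the polynomial), whose integrals are smooth functions of `z` (the integrand is
smooth in `s`); `S.pol * (ch gs) ∈ SS`, `ch` smooth with compact support. -/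
def TrcStmt : Prop :=
  ∀ (ι : Type) [Fintype ι] [DecidableEq ι] (S : Sys ι) (et : ℝ) (eps u f : RR) (ch : X3 → ℝ), et ≠ 0 →
    ContDiff ℝ (⊤ : ℕ∞) ch → HasCompactSupport ch → TC (S.tri et eps u f ch)

/-! ## D. from trial functions to the self-energy -/

/-- RVS (uses: none).  Polynomial wave functions come from states, in EVERY representation.
Proof: the converse of MBX:REP (see Helper16_MBX/REP.lean).  `psi x s = JJ G (R x s)`,
`R x s = ∑ f_k(x) P_k` where `Psi y x s = ∑ k, Gen (P_k) (f_k) y x` (`Submodule.mem_span` gives such a finite sum,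
`G` = real modes of HALF, `JJ` = map of FOCK); smooth with compact support, values in the finite dimensional
span of the `JJ G P_k`.  Norm and energy exactly as in REP. -/
def RvsStmt : Prop :=
  ∀ (cut L alpha : ℝ), 0 < L → 0 ≤ alpha → ∀ (P : Polarization L) (D : Type) [NormedAddCommGroup D]
    [InnerProductSpace ℂ D] (F : Bosons (Mode cut L) D) (Psi : (Mode cut L → ℝ) → X3 → S2), WW Psi →
    ∃ psi : X3 → Fin 2 → D, IsState psi ∧
      normSq psi = II (fun y x => nsq (Psi y x)) ∧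
      energy alpha F P psi = 1 / 2 * II (fun y x => nsq (DD alpha P Psi y x)) +
        II (fun y x => ∑ i, om i * nsq (dY2 i Psi y x))

/-- EGC (uses: none).  Functions of exponential growth: closure, integrability, integration by parts, and the
bound of `∫ y_i^2 |f|^2`.
Proof: `exp (C ∑ |y i|)` is integrable for the product Gaussian (product of one dimensional integrals).
Integration by parts: one variable at a time as in `Loc.stein` / `Loc.stein1` (Fubini; the boundary terms vanish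
by `integral_mul_deriv_eq_deriv_mul_of_integrable` with the density).  Last part: `∫ y_i (y_i |f|^2) =
∫ |f|^2 + ∫ y_i 2 Re (conj f f') ≤ ∫ |f|^2 + (1/2) ∫ y_i^2 |f|^2 + 2 ∫ |f'|^2`. -/
def EgcStmt : Prop :=
  ∀ (ι : Type) [Fintype ι] [DecidableEq ι],
    (∀ f g : (ι → ℝ) → ℂ, EG f → EG g → EG (fun y => f y + g y) ∧ EG (fun y => f y * g y)) ∧
    (∀ f : (ι → ℝ) → ℂ, EG f → EG (fun y => (starRingEnd ℂ) (f y)) ∧ Integrable f (γn ι) ∧
      Integrable (fun y => ‖f y‖ ^ 2) (γn ι)) ∧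
    (∀ P : MvPolynomial ι ℂ, EG (pe P)) ∧ (∀ e : ι → ℝ, EG fun y => (gz e y : ℂ)) ∧
    ∀ (f f' : (ι → ℝ) → ℂ) (i : ι), EG f → EG f' →
      (∀ y, HasDerivAt (fun t : ℝ => f (Function.update y i t)) (f' y) (y i)) →
      ∫ y, (y i : ℂ) * f y ∂(γn ι) = ∫ y, f' y ∂(γn ι) ∧
      ∫ y, y i ^ 2 * ‖f y‖ ^ 2 ∂(γn ι) ≤ 2 * ∫ y, ‖f y‖ ^ 2 ∂(γn ι) + 4 * ∫ y, ‖f' y‖ ^ 2 ∂(γn ι)

/-- CPL (uses: EGC).  The polynomials are dense in `L^2` of the Gaussian measure.
Proof: in the Hilbert space `Lp ℂ 2 (γn ι)` let `V` be the closure of the classes of the polynomials.  It is enough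
that `g ∈ V^⊥` is `0`: for real `lam` the function `∫ conj g exp (i lam . y) = ∑ (i^k / k!) ∫ conj g (lam . y)^k = 0`
(dominated convergence, `|g| exp |lam . y|` is integrable by Cauchy-Schwarz).  So the finite measures with
densities the positive and negative parts of `re g` (and of `im g`) have equal characteristic functions
(`MeasureTheory.Measure.ext_of_charFun`, transported to `EuclideanSpace`, or `ext_of_charFunDual`), so they are
equal and `g = 0` almost everywhere. -/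
def CplStmt : Prop :=
  ∀ (ι : Type) [Fintype ι] [DecidableEq ι] (f : (ι → ℝ) → ℂ), EG f → ∀ del : ℝ, 0 < del →
    ∃ P : MvPolynomial ι ℂ, ∫ y, ‖f y - pe P y‖ ^ 2 ∂(γn ι) < del

/-- PRJ (uses: EGC, CPL).  The projections onto the polynomials of degree `≤ n`.
Proof: `b n` an orthonormal basis (for `⟨P, Q⟩ = ∫ conj P Q`, definite: a polynomial vanishing almost everywhere is
`0`) of the finite dimensional space `V n` of polynomials of total degree `≤ n`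
(`MvPolynomial.restrictTotalDegree ι ℂ n`, `stdOrthonormalBasis` of its image, or Gram-Schmidt).
(1) Bessel.  (2) `‖f - pr f‖ ≤ ‖f - P‖` for `P ∈ V n`, and CPL.  (3) both sides are polynomials of degree `≤ n`
(the derivative of `pr (n+1) f`), and for `Q ∈ V n`: `⟨Q, d_i pr (n+1) f⟩ = ⟨y_i Q - d_i Q, pr (n+1) f⟩ =
⟨y_i Q - d_i Q, f⟩ = ⟨Q, d_i f⟩` by EGC (integration by parts, twice), `y_i Q - d_i Q ∈ V (n+1)`. -/
def PrjStmt : Prop :=
  ∀ (ι : Type) [Fintype ι] [DecidableEq ι], ∃ (d : ℕ → ℕ) (b : (n : ℕ) → Fin (d n) → MvPolynomial ι ℂ),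
    (∀ n (f : (ι → ℝ) → ℂ), EG f → EG (pr (b n) f) ∧
      ∫ y, ‖pr (b n) f y‖ ^ 2 ∂(γn ι) ≤ ∫ y, ‖f y‖ ^ 2 ∂(γn ι)) ∧
    (∀ f : (ι → ℝ) → ℂ, EG f →
      Filter.Tendsto (fun n => ∫ y, ‖f y - pr (b n) f y‖ ^ 2 ∂(γn ι)) Filter.atTop (nhds 0)) ∧
    ∀ n (f f' : (ι → ℝ) → ℂ) (i : ι), EG f → EG f' →
      (∀ y, HasDerivAt (fun t : ℝ => f (Function.update y i t)) (f' y) (y i)) →
      ∀ y, HasDerivAt (fun t : ℝ => pr (b (n + 1)) f (Function.update y i t)) (pr (b n) f' y) (y i)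

/-- SMX (uses: PSA, TCD, EGC).  Averages over `y` of displaced trial functions are smooth in `x`.
Proof: `dsp e psi y x s = gz e y * psi' y x s`, `psi' = psi (y - e)` of class `TC` (TCD).  By TCD `dX j` stays in `TC`
(for each component) and `|psi'| ≤ C prod (1 + |y i|)^m` uniformly in `x`, so
`hasFDerivAt_integral_of_dominated_of_fderiv_le` applies and the partial derivatives are of the same form and
continuous; by induction on `n` the function is `C^n` for all `psi` in `TC` (`contDiff_succ_iff_fderiv`, the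
derivative is the sum over `j` of the partial derivatives times the coordinate forms).  Compact support from TCD. -/
def SmxStmt : Prop :=
  ∀ (ι : Type) [Fintype ι] [DecidableEq ι] (e : ι → ℝ) (psi : (ι → ℝ) → X3 → S2), TC psi →
    ∀ (P : MvPolynomial ι ℂ) (s : Fin 2),
    CS (fun x => ∫ y, pe P y * dsp e psi y x s ∂(γn ι)) ∧
    ∀ (j : Fin 3) (x : X3), fderiv ℝ (fun x => ∫ y, pe P y * dsp e psi y x s ∂(γn ι)) x (Pi.single j 1) =
      ∫ y, pe P y * dX j (fun y x => dsp e psi y x s) y x ∂(γn ι)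

/-- DE1 (uses: TCD, EGC, PRJ, SMX).  Approximation of displaced trial functions by polynomial wave functions, for
every position.
Proof: `Phi = dsp e psi`.  For every `x, s` the functions `y ↦ Phi y x s`, its `dY i` and its `dX j` are in `EG` with
constants uniform in `x`, and vanish for `x` outside a ball (TCD).  `Psi n y x s = pr (b n) (fun y => Phi y x s) y =
∑ j, pe (b n j) y * c_j x`, `c_j x = ∫ conj (pe (b n j)) Phi` is in `CS` by SMX (`conj (pe P) = pe (map conj P)`), so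
`WW (Psi n)`.  For every `x`: `∫ |Phi - Psi n|^2 → 0` (PRJ 2), `dY i (Psi (n+1)) = pr (b n) (dY i Phi)` (PRJ 3),
`dX j (Psi n) = pr (b n) (dX j Phi)` (SMX), and `∫ y_i^2 |Phi - Psi|^2 ≤ 2 ∫ |Phi - Psi|^2 + 4 ∫ |dY i (Phi - Psi)|^2 → 0`
(EGC).  `|DD alpha P (Phi - Psi)|^2 ≤ C (∑ j |dX j ..|^2 + (1 + ∑ y_i^2) |..|^2)` (`VV` is linear in `y` with bounded
coefficients).  All integrals over `y` are bounded by a constant uniformly in `n, x` (Bessel).  Joint integrability: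
continuity and the bound `C exp (C ∑ |y i|)` on the ball, `0` outside. -/
def De1Stmt : Prop :=
  ∀ (cut L alpha : ℝ) (P : Polarization L) (psi : (Mode cut L → ℝ) → X3 → S2) (e : Mode cut L → ℝ), TC psi →
    ∃ (Psi : ℕ → (Mode cut L → ℝ) → X3 → S2) (C R : ℝ), (∀ n, WW (Psi n)) ∧
      (∀ n, Integrable (fun z : (Mode cut L → ℝ) × X3 => Hd alpha P e psi (Psi n) z.1 z.2)
        ((γn (Mode cut L)).prod volume)) ∧
      (∀ n x, ∫ y, Hd alpha P e psi (Psi n) y x ∂(γn (Mode cut L)) ≤ C) ∧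
      (∀ n y x, R ≤ ‖x‖ → Hd alpha P e psi (Psi n) y x = 0) ∧
      ∀ x, Filter.Tendsto (fun n => ∫ y, Hd alpha P e psi (Psi n) y x ∂(γn (Mode cut L))) Filter.atTop (nhds 0)

/-- DEN (uses: DE1).  Displaced trial functions are approximated by polynomial wave functions.
Proof: `II (Hd ..) = ∫ x, ∫ y Hd` (`integral_prod_symm`), dominated convergence in `x` with the bound
`C` on the ball of radius `R` (the inner integral is measurable in `x` as an integrable function,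
`Integrable.integral_prod_right`). -/
def DenStmt : Prop :=
  ∀ (cut L alpha : ℝ) (P : Polarization L) (psi : (Mode cut L → ℝ) → X3 → S2) (e : Mode cut L → ℝ), TC psi →
    ∀ del : ℝ, 0 < del → ∃ Psi : (Mode cut L → ℝ) → X3 → S2, WW Psi ∧
      Integrable (fun z : (Mode cut L → ℝ) × X3 => Hd alpha P e psi Psi z.1 z.2)
        ((γn (Mode cut L)).prod volume) ∧ II (Hd alpha P e psi Psi) ≤ del

/-- SHF (uses: TCD, NFT).  The energy of a displaced trial function.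
Proof: `gz e y ^ 2` times the standard Gaussian density is the density shifted by `e` (product of one dimensional
statements, or `Helper61_Pauli.gaussChange` with `K = 0`), so `II (gz e y ^ 2 * H (y - e) x) = II H` (and integrability).
`dop (VV y) (dsp e psi y) x = gz e y • dop (VV y) (psi (y - e)) x`;
`dY2 i (dsp e psi) y x = gz e y • (dY2 i psi (y - e) x + (e i / 2) • psi (y - e) x)`, `nsq (a + b) ≤ 2 nsq a + 2 nsq b`. -/
def ShfStmt : Prop :=
  ∀ (cut L alpha : ℝ) (P : Polarization L) (psi : (Mode cut L → ℝ) → X3 → S2) (e : Mode cut L → ℝ), TC psi →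
    Integrable (fun z : (Mode cut L → ℝ) × X3 => nsq (dsp e psi z.1 z.2)) ((γn (Mode cut L)).prod volume) ∧
    Integrable (fun z : (Mode cut L → ℝ) × X3 => nsq (dop (VV alpha P z.1) (dsp e psi z.1) z.2))
      ((γn (Mode cut L)).prod volume) ∧
    Integrable (fun z : (Mode cut L → ℝ) × X3 => ∑ i, om i * nsq (dY2 i (dsp e psi) z.1 z.2))
      ((γn (Mode cut L)).prod volume) ∧
    II (fun y x => nsq (dsp e psi y x)) = II (fun y x => nsq (psi y x)) ∧
    II (fun y x => nsq (dop (VV alpha P y) (dsp e psi y) x)) =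
      II (fun y x => nsq (dop (VV alpha P fun i => y i + e i) (psi y) x)) ∧
    II (fun y x => ∑ i, om i * nsq (dY2 i (dsp e psi) y x)) ≤
      2 * II (fun y x => ∑ i, om i * nsq (dY2 i psi y x)) +
        (∑ i, om i * e i ^ 2) / 2 * II (fun y x => nsq (psi y x))

/-- SEL (uses: RVS, DEN, SHF).  From trial functions to the self-energy.
Proof: pointwise `nsq b ≤ (1 + t) nsq a + (1 + 1/t) nsq (a - b)` and `nsq a ≤ (1 + t) nsq b + (1 + 1/t) nsq (a - b)` for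
`a` = the quantity of `dsp e psi`, `b` = that of `Psi` (DEN with small `del`); integrate (the densities of `Psi` are nice:
MBX:DOY, MBX:SNF, MBX:NFC, MBX:NFI; those of `dsp e psi` are integrable by SHF), so `Psi` has energy
`≤ (1 + t) (A/2 + 2 B + (∑ om e^2)/2) n0 + ..del` and norm `≥ (n0 - ..del) / (1 + t)`; RVS and
`Helper49_Pauli.selfEnergy_le` (with `Helper49_Pauli.symm`); let `del → 0`, then `t → 0` (`le_of_forall_pos_le_add`). -/
def SelStmt : Prop :=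
  ∀ (cut L alpha : ℝ), 0 < L → 0 ≤ alpha → ∀ (P : Polarization L) (D : Type) [NormedAddCommGroup D]
    [InnerProductSpace ℂ D] (F : Bosons (Mode cut L) D) (psi : (Mode cut L → ℝ) → X3 → S2)
    (e : Mode cut L → ℝ) (A B : ℝ), TC psi → 0 < II (fun y x => nsq (psi y x)) →
    II (fun y x => nsq (dop (VV alpha P fun i => y i + e i) (psi y) x)) ≤ A * II (fun y x => nsq (psi y x)) →
    II (fun y x => ∑ i, om i * nsq (dY2 i psi y x)) ≤ B * II (fun y x => nsq (psi y x)) →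
    selfEnergy alpha F P ≤ A / 2 + 2 * B + (∑ i, om i * e i ^ 2) / 2

/-- SCA (uses: TCD).  Scaling `x -> cut x`.
Proof: `VV alpha P y x = cut • (msys alpha P).fld y (cut • x)`; `dop V (psi (cut • .)) x = cut • (dop V' psi) (cut • x)`
if `V x = cut • V' (cut • x)`; `II (F y (cut • x)) = cut^(-3) II F` (`Measure.integral_comp_smul` in the variable `x`). -/
def ScaStmt : Prop :=
  ∀ (cut L alpha : ℝ) (P : Polarization L), 0 < cut → 0 < L → 0 < alpha →
    ∀ (psi : (Mode cut L → ℝ) → X3 → S2) (e : Mode cut L → ℝ), TC psi →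
    TC (fun y x => psi y (cut • x)) ∧
    II (fun y x => nsq (psi y (cut • x))) = (cut ^ 3)⁻¹ * II (fun y x => nsq (psi y x)) ∧
    II (fun y x => nsq (dop (VV alpha P fun i => y i + e i) (fun x => psi y (cut • x)) x)) =
      (cut ^ 3)⁻¹ * cut ^ 2 * II (fun y x => nsq (dop ((msys alpha P).fld fun i => y i + e i) (psi y) x)) ∧
    II (fun y x => ∑ i, om i * nsq (dY2 i (fun y x => psi y (cut • x)) y x)) =
      (cut ^ 3)⁻¹ * cut * II (fun y x => ∑ i, (msys alpha P).w i * nsq (dY2 i psi y x))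

/-! ## E. the energy of the trial function -/

/-- GAM (uses: none).  Moments of affine functions of Gaussian variables.
Proof: `(1 + ∑ t_v)^m ≤ (n + 1)^m (1 + ∑ t_v^m)`, `|b + X|^m ≤ 2^m (|b|^m + |X|^m)`,
`|X|^m ≤ m! (exp X + exp (-X))`, `∫ exp (∑ y_i a_i) = exp ((∑ a_i^2) / 2)` (product of one dimensional integrals,
`mgf_gaussianReal`).  `K` may be negative (then `n = 0` or there is nothing to prove: use `|K|`). -/
def GamStmt : Prop :=
  ∀ (m n : ℕ) (K : ℝ), ∃ C : ℝ, 0 ≤ C ∧ ∀ (ι : Type) [Fintype ι] (a : Fin n → ι → ℝ) (b : Fin n → ℝ),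
    (∀ v, |b v| ≤ K) → (∀ v, ∑ i, a v i ^ 2 ≤ K) →
    Integrable (fun y : ι → ℝ => (1 + ∑ v, |b v + ∑ i, y i * a v i|) ^ m) (γn ι) ∧
    ∫ y : ι → ℝ, (1 + ∑ v, |b v + ∑ i, y i * a v i|) ^ m ∂(γn ι) ≤ C

/-- JMM (uses: GAM).  Moments of the jets at one point of the axis, together with three more affine functions.
Proof: GAM for the list consisting of the jets `v ∈ T` (`jt (y + e) = (∑ e_i jm_i - idl) + ∑ y_i jm_i`, mean `≤ K` by
`Bg`, variance `≤ ∑ c_i^2 ≤ ∑ c_i^2 / w_i ≤ K`, as `|jm| ≤ |c_i|` and `w_i ≤ 1`) and of `b' c + ∑ y_i a' c i`;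
`n` is larger than all the orders `p + q + r` of the jets in `T`. -/
def JmmStmt : Prop :=
  ∀ (m : ℕ) (T : Finset Var), ∃ n : ℕ, ∀ K : ℝ, ∃ C : ℝ, 0 ≤ C ∧ ∀ (ι : Type) [Fintype ι] (S : Sys ι)
    (ell et l cost : ℝ) (e : ι → ℝ), S.Good K ell → S.Bg et l K cost n e → ∀ z : ℝ, |z| ≤ l →
    ∀ (a' : Fin 3 → ι → ℝ) (b' : Fin 3 → ℝ), (∀ c, |b' c| ≤ K) → (∀ c, ∑ i, a' c i ^ 2 ≤ K) →
    Integrable (fun y : ι → ℝ => (1 + (∑ v ∈ T, ja (S.jt et (fun i => y i + e i) z) v) +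
      ∑ c, |b' c + ∑ i, y i * a' c i|) ^ m) (γn ι) ∧
    ∫ y : ι → ℝ, (1 + (∑ v ∈ T, ja (S.jt et (fun i => y i + e i) z) v) +
      ∑ c, |b' c + ∑ i, y i * a' c i|) ^ m ∂(γn ι) ≤ C

/-- DTD (uses: EVR, EVX, EVT).  The derivatives of a component of the trial function.
Proof: product rule; `d_0 gs = -(x_0 / (2 et^4)) gs`; EVX; along the axis `cexp (-(I Th))` has the derivative
`-I (1/et + (ev (jt y z) 0 eps).re)` times itself (EVT, chain rule through `x 2`), and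
`(ev .. 0 eps).re = pol eps` (EVR, `eps ∈ Jt`, `cj eps = eps`). -/
def DtdStmt : Prop :=
  ∀ (ι : Type) [Fintype ι] [DecidableEq ι] (S : Sys ι) (et : ℝ) (eps P : RR) (ch : X3 → ℝ) (y : ι → ℝ)
    (x : X3), et ≠ 0 → eps ∈ Jt → cj eps = eps → ContDiff ℝ (⊤ : ℕ∞) ch →
    ∀ T : X3 → ℂ, T = (fun x => cexp (-(I * (S.Th et eps y (x 2) : ℂ))) * ((ch x * gs et x : ℝ) : ℂ) *
      S.pol et P y x) →
    ContDiff ℝ (⊤ : ℕ∞) T ∧
    fderiv ℝ T x (Pi.single 0 1) = cexp (-(I * (S.Th et eps y (x 2) : ℂ))) * ((gs et x : ℝ) : ℂ) *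
      ((ch x : ℂ) * (S.pol et (dz P + db P) y x / (et : ℂ) ^ 2 - ((x 0 / (2 * et ^ 4) : ℝ) : ℂ) * S.pol et P y x) +
        (pd 0 ch x : ℂ) * S.pol et P y x) ∧
    fderiv ℝ T x (Pi.single 1 1) = cexp (-(I * (S.Th et eps y (x 2) : ℂ))) * ((gs et x : ℝ) : ℂ) *
      ((ch x : ℂ) * (I * S.pol et (dz P - db P) y x / (et : ℂ) ^ 2 -
        ((x 1 / (2 * et ^ 4) : ℝ) : ℂ) * S.pol et P y x) + (pd 1 ch x : ℂ) * S.pol et P y x) ∧
    fderiv ℝ T x (Pi.single 2 1) = cexp (-(I * (S.Th et eps y (x 2) : ℂ))) * ((gs et x : ℝ) : ℂ) *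
      ((ch x : ℂ) * (S.pol et (dt P) y x - I * (((1 / et : ℝ) : ℂ) + S.pol et eps y x) * S.pol et P y x) +
        (pd 2 ch x : ℂ) * S.pol et P y x)

/-- DTR (uses: EVR, DTD).  The Dirac operator applied to the trial function.
Proof: DTD for `P = u, f`, then algebra.  With `w = x_0 + i x_1 = et^2 zeta`: the transversal part of the first
component is `-i d_0 f - d_1 f + (V_0 - i V_1) f`: the derivatives give `-2i et^(-2) pol (dz f)` and from the Gaussian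
`(i/2) et^(-2) conj zeta pol f`, which cancels the ideal field `V_0 - i V_1 = -(i b/2) conj w`, `b = et^(-4)`.  Second
component: `-i d_0 u + d_1 u + (V_0 + i V_1) u = et^(-2) I (zeta u - 2 db u)`.  Along the axis: `-i dt` and
`- (1/et + eps) + g |x|^2/2 = w0 / et - eps`, `g = et^(-5)`.  The rest of the field is
`S.fld y x c - ideal_c = (Taylor polynomial with the jets jt) + ∑ y_i rm_i`, because the ideal field
`(-(b/2) x_1, (b/2) x_0, g (x_0^2 + x_1^2)/2)` is its own Taylor polynomial (`M ≥ 3`); EVR gives the value of `TT`. -/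
def DtrStmt : Prop :=
  ∀ (ι : Type) [Fintype ι] [DecidableEq ι] (S : Sys ι) (et : ℝ) (M : ℕ) (eps u f : RR) (ch : X3 → ℝ) (y : ι → ℝ)
    (x : X3), et ≠ 0 → 3 ≤ M → eps ∈ Jt → cj eps = eps → ContDiff ℝ (⊤ : ℕ∞) ch →
    dop (S.fld y) (S.tri et eps u f ch y) x =
      (cexp (-(I * (S.Th et eps y (x 2) : ℂ))) * ((gs et x : ℝ) : ℂ)) •
        (((ch x / et ^ 2 : ℝ) : ℂ) • ![S.pol et (D1 M eps u f) y x, S.pol et (D2 M eps u f) y x] +
          (ch x : ℂ) • sl (fun c => ∑ i, y i * S.rm M i x c) ![S.pol et u y x, S.pol et f y x] +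
          ∑ j, (-I * (pd j ch x : ℂ)) • sg j ![S.pol et u y x, S.pol et f y x])

/-- DRP (uses: DTR).  Pointwise bound of the Dirac energy density.
Proof: DTR with `ch = sc bp l`, `nsq (a + b + c) ≤ 3 (nsq a + nsq b + nsq c)`; `pol (xe^M r) = et^M pol r`;
`nsq (sl v phi) = sq v * nsq phi` (`v` real), also for `∑ j (pd j ch) sg j`; `|pd j (sc bp l) x| ≤ CB / l`; both `ch` and
its derivatives vanish outside the cube, `ch ≤ 1`. -/
def DrpStmt : Prop :=
  ∀ (bp : X3 → ℝ) (CB : ℝ), Bump bp CB → ∀ (M : ℕ) (eps u f r1 r2 : RR), 3 ≤ M → eps ∈ Jt → cj eps = eps →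
    D1 M eps u f = xe ^ M * r1 → D2 M eps u f = xe ^ M * r2 →
    ∀ (ι : Type) [Fintype ι] [DecidableEq ι] (S : Sys ι) (et l : ℝ) (y : ι → ℝ) (x : X3), 0 < et → 1 ≤ l →
    nsq (dop (S.fld y) (S.tri et eps u f (sc bp l) y) x) ≤ 3 * (cube l x * gs et x ^ 2) *
      (et ^ (2 * M - 4) * (‖S.pol et r1 y x‖ ^ 2 + ‖S.pol et r2 y x‖ ^ 2) +
        (∑ c, (∑ i, y i * S.rm M i x c) ^ 2 + 3 * CB ^ 2 * (l⁻¹) ^ 2) *
          (‖S.pol et u y x‖ ^ 2 + ‖S.pol et f y x‖ ^ 2))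

/-- DRX (uses: RMB, POB, JMM, DRP).  The Dirac energy at one point.
Proof: DRP at `y + e`, POB for `r1, r2, u, f`.  The remainder: `∑ (y_i + e_i) rm_i`, divided by
`(|x_0| + |x_1|)^M (1 + sqrt cost)`, is an affine function of `y` with variance `≤ ∑ c_i^2 ≤ K` (RMB) and mean
`≤ (∑ w e^2)^(1/2) (∑ c^2 / w)^(1/2) / (1 + sqrt cost) ≤ sqrt K ≤ 1 + K`: it is taken as `b' + ∑ y_i a'_i` in JMM, used
with `K` replaced by `1 + K` (`Good` and `Bg` are monotone in `K`); `|x_0| + |x_1| ≤ 2 et^2 ‖zt et x‖`, so its square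
contributes `(1 + cost) et^(4M) (2 ‖zt‖)^(2M)`.  If `x_0 = x_1 = 0` the remainder is `0` (`M ≥ 3`). -/
def DrxStmt : Prop :=
  ∀ (bp : X3 → ℝ) (CB : ℝ), Bump bp CB → ∀ (M : ℕ) (eps u f r1 r2 : RR), 3 ≤ M → eps ∈ Jt → cj eps = eps →
    D1 M eps u f = xe ^ M * r1 → D2 M eps u f = xe ^ M * r2 → ∃ m n : ℕ, ∀ K : ℝ, ∃ C : ℝ, 0 ≤ C ∧
    ∀ (ι : Type) [Fintype ι] [DecidableEq ι] (S : Sys ι) (ell et l cost : ℝ) (e : ι → ℝ), S.Good K ell → 0 < et →
    et ≤ 1 → 1 ≤ l → 0 ≤ cost → S.Bg et l K cost n e → ∀ x : X3,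
    ∫ y, nsq (dop (S.fld fun i => y i + e i) (S.tri et eps u f (sc bp l) fun i => y i + e i) x) ∂(γn ι) ≤
      C * ((l⁻¹) ^ 2 + et ^ (2 * M - 4) + (1 + cost) * et ^ (4 * M)) *
        (cube l x * (1 + ‖zt et x‖) ^ m * gs et x ^ 2)

/-- BSU (uses: none).  The energy of the derivatives of the phase at fixed `y`: abstract Bessel inequality.
Proof: `jv i v s = (c_i kap) cos (k_2 s - tau)`, `|kap| ≤ 1` (or `0`), so
`|∫_0^z g jv| ≤ |c_i| ‖∫_0^z g exp (i k_2 s)‖` for real `g`; `Good.bes` on `[0, z]` or `[z, 0]`; sum over `v` by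
Cauchy-Schwarz.  Second part: `∑ i w_i |∑ v jv i v z a_v|^2 ≤ (card T) K ∑ v |a_v|^2`, `∑ w_i c_i^2 ≤ ∑ c_i^2 / w_i`. -/
def BsuStmt : Prop :=
  ∀ (ι : Type) [Fintype ι] (S : Sys ι) (K ell : ℝ), S.Good K ell → ∀ (T : Finset Var),
    (∀ (g : Var → ℝ → ℝ) (z : ℝ), (∀ v, Continuous (g v)) → |z| ≤ ell →
      ∑ i, S.w i * (∫ s in (0 : ℝ)..z, ∑ v ∈ T, S.jv i v s * g v s) ^ 2 ≤
        (T.card : ℝ) * K * ∑ v ∈ T, |∫ s in (0 : ℝ)..z, g v s ^ 2|) ∧
    ∀ (a : Var → ℂ) (z : ℝ), ∑ i, S.w i * ‖∑ v ∈ T, (S.jv i v z : ℂ) * a v‖ ^ 2 ≤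
      (T.card : ℝ) * K * ∑ v ∈ T, ‖a v‖ ^ 2

/-- FLP (uses: EVY, EVT, BSU).  Pointwise bound of the field energy density.
Proof: `dY2 i tri y x = cexp (-(I Th)) (ch gs) ((d_i u, d_i f) - I (d_i Th) (u, f))` by EVY, EVT, so
`nsq ≤ 2 (ch gs)^2 (|d_i u|^2 + |d_i f|^2 + (d_i Th)^2 (|u|^2 + |f|^2))`; sum over `i` with `w_i`: BSU with `T = eps.vars`
for `Th` (`z = x 2`, `|x 2| ≤ l ≤ ell` in the cube) and with `T = u.vars`, `f.vars`. -/
def FlpStmt : Prop :=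
  ∀ (bp : X3 → ℝ) (CB : ℝ), Bump bp CB → ∀ (eps u f : RR) (ι : Type) [Fintype ι] [DecidableEq ι] (S : Sys ι)
    (K ell et l : ℝ) (y : ι → ℝ) (x : X3), S.Good K ell → 0 < et → 1 ≤ l → l ≤ ell →
    ∑ i, S.w i * nsq (dY2 i (S.tri et eps u f (sc bp l)) y x) ≤ 2 * (cube l x * gs et x ^ 2) * K *
      ((eps.vars.card : ℝ) * (∑ v ∈ eps.vars,
          |∫ s in (0 : ℝ)..(x 2), (ev et (S.jt et y s) 0 (MvPolynomial.pderiv v eps)).re ^ 2|) *
          (‖S.pol et u y x‖ ^ 2 + ‖S.pol et f y x‖ ^ 2) +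
        (u.vars.card : ℝ) * ∑ v ∈ u.vars, ‖S.pol et (MvPolynomial.pderiv v u) y x‖ ^ 2 +
        (f.vars.card : ℝ) * ∑ v ∈ f.vars, ‖S.pol et (MvPolynomial.pderiv v f) y x‖ ^ 2)

/-- FLX (uses: POB, JMM, FLP).  The field energy at one point.
Proof: FLP at `y + e` (`dY2` commutes with the shift).  Expectation: POB and JMM (`a' = 0`, `b' = 0`),
`E [p(s)^2 (|u|^2 + |f|^2)(z)] ≤ (E p(s)^4 + E (|u|^2 + |f|^2)^2) / 2 ≤ C (1 + ‖zt‖)^m` for `|s| ≤ |z| ≤ l`
(Fubini for the integral over `s`, all integrands are jointly continuous and polynomially bounded in `y`), total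
`≤ C l`. -/
def FlxStmt : Prop :=
  ∀ (bp : X3 → ℝ) (CB : ℝ), Bump bp CB → ∀ (eps u f : RR), ∃ m n : ℕ, ∀ K : ℝ, ∃ C : ℝ, 0 ≤ C ∧
    ∀ (ι : Type) [Fintype ι] [DecidableEq ι] (S : Sys ι) (ell et l cost : ℝ) (e : ι → ℝ), S.Good K ell → 0 < et →
    et ≤ 1 → 1 ≤ l → l ≤ ell → S.Bg et l K cost n e → ∀ x : X3,
    ∫ y, ∑ i, S.w i * nsq (dY2 i (fun y => S.tri et eps u f (sc bp l) fun i => y i + e i) y x) ∂(γn ι) ≤
      C * l * (cube l x * (1 + ‖zt et x‖) ^ m * gs et x ^ 2)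

/-- EXN (uses: POB, JMM).  The norm of the trial function at one point, from below.
Proof: `nsq tri ≥ (ch gs)^2 |pol f|^2`, `pol f = 1 + et pol h`, `|1 + a|^2 ≥ 1/2 - |a|^2`, POB and JMM for `h`.  (The
integrand is integrable by POB, JMM, `T = u.vars ∪ f.vars ∪ h.vars`.) -/
def ExnStmt : Prop :=
  ∀ (bp : X3 → ℝ) (CB : ℝ), Bump bp CB → ∀ (eps u f h : RR), f = 1 + xe * h →
    ∃ m n : ℕ, ∀ K : ℝ, ∃ C : ℝ, 0 ≤ C ∧
    ∀ (ι : Type) [Fintype ι] [DecidableEq ι] (S : Sys ι) (ell et l cost : ℝ) (e : ι → ℝ), S.Good K ell → 0 < et →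
    et ≤ 1 → 1 ≤ l → S.Bg et l K cost n e → ∀ x : X3,
    1 / 2 * (sc bp l x ^ 2 * gs et x ^ 2) - C * et ^ 2 * (cube l x * (1 + ‖zt et x‖) ^ m * gs et x ^ 2) ≤
      ∫ y, nsq (S.tri et eps u f (sc bp l) (fun i => y i + e i) x) ∂(γn ι)

/-- XIN (uses: none).  Integrals over the position.
Proof: `gs et x ^ 2 = exp (-(x_0^2 + x_1^2) / (2 et^4))`, substitute `x_0 = et^2 s`, `x_1 = et^2 t` (`integral_fin_nat`..
or the volume preserving equivalence `Fin 3 → ℝ`, Fubini); `cube l x ≤` indicator of `|x_2| ≤ l`;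
`(1 + |zeta|)^m ≤ 2^m (1 + s^2)^m (1 + t^2)^m`.  Lower bound: `bp (x / l) = 1` for `|x_j| ≤ l / 2`, and this contains
`|x_0|, |x_1| ≤ et^2 / 2`, `|x_2| ≤ l / 2`, where `gs^2 ≥ exp (-1/4)`. -/
def XinStmt : Prop :=
  (∀ m : ℕ, ∃ C : ℝ, 0 ≤ C ∧ ∀ et l : ℝ, 0 < et → et ≤ 1 → 1 ≤ l →
    Integrable (fun x : X3 => cube l x * (1 + ‖zt et x‖) ^ m * gs et x ^ 2) ∧
    ∫ x : X3, cube l x * (1 + ‖zt et x‖) ^ m * gs et x ^ 2 ≤ C * (l * et ^ 4)) ∧
  ∃ c : ℝ, 0 < c ∧ ∀ (bp : X3 → ℝ) (CB : ℝ), Bump bp CB → ∀ et l : ℝ, 0 < et → et ≤ 1 → 1 ≤ l →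
    c * (l * et ^ 4) ≤ ∫ x : X3, sc bp l x ^ 2 * gs et x ^ 2

/-- COR (uses: TCD, NFT, TRC, DRX, FLX, EXN, XIN).  The energy of the trial function.
Proof: `psi` is in `TC` (TRC and the shift part of TCD), so all densities are nice (NFT), integrable (MBX:NFI), and `II`
is `∫ x, ∫ y` (`integral_prod_symm`); insert DRX, FLX, EXN and XIN.  For the norm: `c / 2 - C et^2 C' ≥ c / 4` for
`et ≤ et0`.  Take the maximum of the `n`s (`Bg` is antitone in `n`) and of the constants. -/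
def CorStmt : Prop :=
  ∀ (bp : X3 → ℝ) (CB : ℝ), Bump bp CB → ∀ (M : ℕ) (eps u f h r1 r2 : RR), 3 ≤ M → eps ∈ Jt → cj eps = eps →
    f = 1 + xe * h → D1 M eps u f = xe ^ M * r1 → D2 M eps u f = xe ^ M * r2 → ∃ n : ℕ, ∀ K : ℝ,
    ∃ C et0 : ℝ, 0 < C ∧ 0 < et0 ∧ et0 ≤ 1 ∧
    ∀ (ι : Type) [Fintype ι] [DecidableEq ι] (S : Sys ι) (ell et l cost : ℝ) (e : ι → ℝ), S.Good K ell → 0 < et →
    et ≤ et0 → 1 ≤ l → l ≤ ell → 0 ≤ cost → S.Bg et l K cost n e →
    ∀ psi : (ι → ℝ) → X3 → S2, psi = (fun y => S.tri et eps u f (sc bp l) fun i => y i + e i) →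
      TC psi ∧ l * et ^ 4 ≤ C * II (fun y x => nsq (psi y x)) ∧
      II (fun y x => nsq (dop (S.fld fun i => y i + e i) (psi y) x)) ≤
        C * ((l⁻¹) ^ 2 + et ^ (2 * M - 4) + (1 + cost) * et ^ (4 * M)) * (l * et ^ 4) ∧
      II (fun y x => ∑ i, S.w i * nsq (dY2 i psi y x)) ≤ C * l * (l * et ^ 4)

/-! ## F. the box -/

/-- LAT (uses: none).  The lattice sum of `1 / |k|^2`.
Proof: `freq L n = (2 pi / L) |n|` and `momenta` is `0 < |n| < L cut / (2 pi) =: R` (`latt`, first part); with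
`m = max |n_j|`: `|n| ≥ m` and there are at most `(2m+1)^3 - (2m-1)^3 ≤ 26 m^2` integer vectors with `max |n_j| = m`, so
`∑ (R / |n|)^2 ≤ R^2 ∑ (1 ≤ m < R) 26 ≤ 26 R^3`. -/
def LatStmt : Prop :=
  ∃ C : ℝ, 0 < C ∧ ∀ cut L : ℝ, 0 < cut → 0 < L →
    ∑ n ∈ momenta cut L, (cut / freq L n) ^ 2 ≤ C * (L * cut) ^ 3

/-- BSL (uses: none).  Bessel inequality for the modes.
Proof: `wave L n 2 / cut = 2 pi n_2 / ell`, `ell = L cut`.  For fixed `(n_0, n_1)` (at most `(2R+1)^2 ≤ ell^2` values,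
`R = ell / (2 pi) ≥ 1` if there is a mode) the sum over `n_2` is `≤ ell ∫ g^2` by Bessel's inequality for the
orthonormal functions `ell^(-1/2) exp (2 pi i n s / ell)` on an interval of length `ell` containing `[a, b]`
(`g` extended by `0`); e.g. expand `0 ≤ ∫_a^(a+ell) |g 1_[a,b] - (1/ell) ∑ c_n exp (i k_n s)|^2` with
`c_n = ∫ g exp (-i k_n s)`, which is elementary. -/
def BslStmt : Prop :=
  ∃ C : ℝ, 0 < C ∧ ∀ cut L : ℝ, 0 < cut → 0 < L → ∀ (g : ℝ → ℝ) (a b : ℝ), Continuous g → a ≤ b →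
    b - a ≤ L * cut →
    ∑ n ∈ momenta cut L, ‖∫ s in a..b, (g s : ℂ) * cexp (I * ((wave L n 2 / cut * s : ℝ) : ℂ))‖ ^ 2 ≤
      C * (L * cut) ^ 3 * ∫ s in a..b, g s ^ 2

/-- GOD (uses: LAT, BSL).  The modes of the box are good.
Proof: `|k_j| ≤ |k| < cut`, `|e_j| ≤ 1` (orthonormal, `n ≠ 0`), `c^2 = alpha / (L^3 om cut^2)`, so
`w c^2 = alpha / ell^3`, `c^2 / w = (alpha / ell^3) (cut / om)^2`; the sum over `Mode` is twice the sum over `momenta`. -/
def GodStmt : Prop :=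
  ∀ alpha : ℝ, 0 < alpha → ∃ K : ℝ, 0 < K ∧ ∀ cut L : ℝ, 0 < cut → 0 < L → ∀ P : Polarization L,
    (msys (cut := cut) alpha P).Good K (L * cut)

/-- TRG (uses: none).  Every rotation of a trigonometric polynomial is the field of a displacement.
Proof: `curl Re (∑ g_n exp (i k_n . x)) = Re (∑ v_n exp (i k_n . x))`, `v_n = i k_n × g_n` orthogonal to `k_n` (the term
`n = 0` vanishes).  The real modes: for `n` in the half space of HALF (`tt = 0`) the mode `(n, lam)` is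
`cos (k_n . x) e_(n,lam)`, and `(-n, lam)` is `cos (k_(-n) . x - pi/2) e_(-n,lam) = - sin (k_n . x) e_(-n,lam)`.
`Re (v exp (i k . x)) = Re v cos (k . x) - Im v sin (k . x)`, expand `Re v`, `Im v` in `e_(n,lam)`, `e_(-n,lam)`
(`Half.complete`); a pair `n, -n` collects the contributions of `n` and `-n`, so the squares of the amplitudes sum to at
most `2 ∑ |v_n|^2 ≤ 2 ∑ |k_n|^2 |g_n|^2`.  Amplitude `a_i = e_i c_i`, so `w_i e_i^2 = a_i^2 w_i^2 ell^3 / alpha`,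
`w_i = |k_i| < 1`.  See `HalfStatement` (last part) and its proof in Helper75_Pauli/Half.lean. -/
def TrgStmt : Prop :=
  ∀ (alpha cut L : ℝ) (P : Polarization L), 0 < alpha → 0 < cut → 0 < L →
    ∀ (B : Finset (Fin 3 → ℤ)) (g : (Fin 3 → ℤ) → Fin 3 → ℂ),
    (∀ n ∈ B, Helper49_Pauli.sq (fun j => 2 * Real.pi / (L * cut) * (n j : ℝ)) < 1) →
    ∃ e : Mode cut L → ℝ,
      (∀ x, (msys alpha P).fld e x = curl (fun x j => (∑ n ∈ B, g n j *
        cexp (I * (dot (fun j => 2 * Real.pi / (L * cut) * (n j : ℝ)) x : ℂ))).re) x) ∧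
      ∑ i, (msys alpha P).w i * e i ^ 2 ≤ 2 / alpha * (L * cut) ^ 3 * ∑ n ∈ B, ∑ j, ‖g n j‖ ^ 2

/-- TPM (uses: none).  Trigonometric polynomials in one variable.
Proof: (1) extend the coefficients by `0`.  (2) coefficients `r m = ∑ (n + n' = m) p n q n'`; Parseval (orthogonality of
the exponentials on `[0, ell]`, finite sums): `∑ |r|^2 = (1/ell) ∫ |f g|^2 ≤ G^2 (1/ell) ∫ |f|^2 = G^2 ∑ |p|^2`. -/
def TpmStmt : Prop :=
  ∀ ell : ℝ, 0 < ell →
    (∀ (K K' : ℕ) (B B' : ℝ) (f : ℝ → ℝ), K ≤ K' → B ≤ B' → TP ell K B f → TP ell K' B' f) ∧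
    ∀ (K K' : ℕ) (B B' G : ℝ) (f g : ℝ → ℝ), TP ell K B f → TP ell K' B' g → (∀ s, |g s| ≤ G) →
      TP ell (K + K') (G ^ 2 * B) (fun s => f s * g s)

/-- DKP (uses: none).  The Dirichlet kernel `dk` and `ss * dk`.
Proof: `cos` is half of the sum of two exponentials: `dk` has the coefficients `1 / (2M+1)`; telescoping:
`2 sin a cos (n a) = sin ((n+1) a) - sin ((n-1) a)`, so
`ss * dk = ell / (2 pi (2M+1)) (sin ((M+1) a) + sin (M a))`, `a = 2 pi s / ell`, absolute value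
`≤ ell / (pi (2M+1))`. -/
def DkpStmt : Prop :=
  ∀ (ell : ℝ) (M : ℕ), 0 < ell →
    TP ell M (1 / (2 * M + 1)) (dk ell M) ∧ (∀ s, |dk ell M s| ≤ 1) ∧
    (∀ s, ss ell s * dk ell M s = ell / (2 * Real.pi * (2 * M + 1)) *
      (Real.sin ((M + 1) * (2 * Real.pi / ell * s)) + Real.sin (M * (2 * Real.pi / ell * s)))) ∧
    (∃ B : ℝ, TP ell (M + 1) B (fun s => ss ell s * dk ell M s)) ∧
    ∀ s, |ss ell s * dk ell M s| ≤ ell / (2 * M + 1)

/-- PFT (uses: TPM, DKP).  The profiles `pf` are trigonometric polynomials with small coefficients.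
Proof: `pf = dk * (ss dk)^m * dk^(3-m)`, `m ≤ 3`; TPM with `f = dk` and `g = (ss dk)^m dk^(3-m)`, `|g| ≤ W^m`,
`W = ell / (2M+1)` (`g` is a trigonometric polynomial by TPM again, `B'` arbitrary). -/
def PftStmt : Prop :=
  ∀ (ell : ℝ) (M m : ℕ), 0 < ell → m ≤ 3 →
    TP ell (4 * M + 4) ((ell / (2 * M + 1)) ^ (2 * m) / (2 * M + 1)) (pf ell M m) ∧
    ContDiff ℝ (⊤ : ℕ∞) (pf ell M m)

/-- PFD (uses: DKP).  The derivatives of the profiles at `0`, `W = ell / (2M+1) ≥ 1`.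
Proof: `F = dk^4` is a combination of functions `cos (2 pi n s / ell)`, `|n| ≤ 4M`, with nonnegative coefficients of sum `1`
(or: `dk` has bounds `|dk^(j)| ≤ (2 pi M / ell)^j ≤ (pi / W)^j`, `dk 0 = 1`, `dk' 0 = 0`, and Leibniz), so `F 0 = 1`,
`F' 0 = 0`, `|F^(j) (s)| ≤ C_j / W^2` for `j ≥ 2` and all `s`.  `ss^m`: derivatives at `0` of order `i` are `0` for `i < m`
and `i = m + 1`, `m!` for `i = m`, `≤ C_i / ell^2` for `i ≥ m + 2` (`ss s = (ell / 2 pi) sin (2 pi s / ell)`,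
scaling; `ell ≥ W ≥ 1`).  Leibniz (`iteratedDeriv_mul`).  Last part (`m = 0`, all `z`): Taylor at `0`:
`|F z - 1| ≤ C z^2 / W^2`, `|F' z| ≤ C |z| / W^2`. -/
def PfdStmt : Prop :=
  ∀ j : ℕ, ∃ C : ℝ, 0 ≤ C ∧ ∀ (ell : ℝ) (M : ℕ), 0 < ell → 1 ≤ ell / (2 * M + 1) →
    (∀ m ≤ 3, |iteratedDeriv j (pf ell M m) 0 - (if j = m then (m.factorial : ℝ) else 0)| ≤
      C / (ell / (2 * M + 1)) ^ 2) ∧
    ∀ z : ℝ, |iteratedDeriv j (pf ell M 0) z - (if j = 0 then 1 else 0)| ≤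
      C * (1 + |z|) ^ 2 / (ell / (2 * M + 1)) ^ 2

/-- PR3 (uses: none).  Products of three trigonometric polynomials.
Proof: coefficients `g n = p1 (n 0) * p2 (n 1) * p3 (n 2)` on the box `Finset.Icc (fun _ => -K) (fun _ => K)`;
`Finset.prod_univ_sum`-type identity (`Fintype.piFinset`, `Finset.Icc` of a pi type). -/
def Pr3Stmt : Prop :=
  ∀ (ell : ℝ) (K : ℕ) (B1 B2 B3 : ℝ) (f1 f2 f3 : ℝ → ℝ), 0 ≤ B1 → 0 ≤ B2 → 0 ≤ B3 →
    TP ell K B1 f1 → TP ell K B2 f2 → TP ell K B3 f3 →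
    ∃ g : (Fin 3 → ℤ) → ℂ, (∀ x : X3, ((f1 (x 0) * f2 (x 1) * f3 (x 2) : ℝ) : ℂ) =
      ∑ n ∈ Finset.Icc (fun _ : Fin 3 => -(K : ℤ)) (fun _ => (K : ℤ)), g n *
        cexp (I * (dot (fun j => 2 * Real.pi / ell * (n j : ℝ)) x : ℂ))) ∧
      ∑ n ∈ Finset.Icc (fun _ : Fin 3 => -(K : ℤ)) (fun _ => (K : ℤ)), ‖g n‖ ^ 2 ≤ B1 * B2 * B3

/-- JFD (uses: none).  The jets of a field which is a sum of products.
Proof: `S.fld e x c` for fixed `x_1, x_2` as a function of `x_0`: take `iteratedDeriv p` at `0`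
(`iteratedDeriv` of `cos (k_0 s + t)` is `k_0^p cos (k_0 s + t + p pi/2)`), then `iteratedDeriv q` in `x_1` at `0`, then
`iteratedDeriv r` in `x_2` at `z`; the same on the right side. -/
def JfdStmt : Prop :=
  ∀ (ι : Type) [Fintype ι] (S : Sys ι) (e : ι → ℝ) (c : Fin 3) (n : ℕ) (A B D : Fin n → ℝ → ℝ),
    (∀ a, ContDiff ℝ (⊤ : ℕ∞) (A a)) → (∀ a, ContDiff ℝ (⊤ : ℕ∞) (B a)) → (∀ a, ContDiff ℝ (⊤ : ℕ∞) (D a)) →
    (∀ x : X3, S.fld e x c = ∑ a, A a (x 0) * B a (x 1) * D a (x 2)) →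
    ∀ (p q r : ℕ) (z : ℝ), ∑ i, e i * S.jm i c p q r z =
      ∑ a, iteratedDeriv p (A a) 0 * iteratedDeriv q (B a) 0 * iteratedDeriv r (D a) z

/-- PRO (uses: PFT, PFD, TPM).  The profiles of the background.
Proof: `2M+1` = the largest odd integer `≤ ell et^3`, so `W = ell / (2M+1)` is in `[et^(-3), 3 et^(-3)]`; `2M'+1` = the
largest odd integer `≤ ell et^3 / l`, `W' = ell / (2M'+1)` in `[l et^(-3), 3 l et^(-3)]`; `M' ≤ M` (`ell et^3 ≥ l ≥ 1`).
`p m = pf ell M m`, `q = pf ell M' 0`, `K = 4M + 4`: `2 pi K / ell ≤ 8 pi (2M+1) / ell ≤ 8 pi et^3`.  Coefficients: PFT,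
`W^(2m)/(2M+1) = W^(2m+1) / ell`.  Derivatives: PFD, `1/W^2 ≤ et^6`, `(1 + |z|)^2 / W'^2 ≤ 4 l^2 et^6 / l^2`; `C` = maximum
over `j ≤ n`. -/
def ProStmt : Prop :=
  ∀ n : ℕ, ∃ C : ℝ, 0 < C ∧ ∀ ell et l : ℝ, 0 < et → et ≤ 1 → 1 ≤ l → l * (et ^ 3)⁻¹ ≤ ell →
    ∃ (K : ℕ) (p : ℕ → ℝ → ℝ) (q : ℝ → ℝ), 2 * Real.pi / ell * K ≤ 8 * Real.pi * et ^ 3 ∧
      (∀ m ≤ 3, ContDiff ℝ (⊤ : ℕ∞) (p m) ∧ TP ell K (C * ((et ^ 3)⁻¹) ^ (2 * m + 1) / ell) (p m) ∧
        ∀ j ≤ n, |iteratedDeriv j (p m) 0 - (if j = m then (m.factorial : ℝ) else 0)| ≤ C * et ^ 6) ∧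
      ContDiff ℝ (⊤ : ℕ∞) q ∧ TP ell K (C * (l * (et ^ 3)⁻¹) / ell) q ∧
      ∀ j ≤ n, ∀ z : ℝ, |z| ≤ l → |iteratedDeriv j q z - (if j = 0 then 1 else 0)| ≤ C * et ^ 6

/-- PSI (uses: PR3).  The vector potential `vps` is a trigonometric polynomial.
Proof: PR3 for the four products, linear combinations; `(a + b)^2 ≤ 2 a^2 + 2 b^2`; real part of a real number. -/
def PsiStmt : Prop :=
  ∀ (ell b g : ℝ) (K : ℕ) (B0 B2 B3 Bq : ℝ) (p0 p2 p3 q : ℝ → ℝ), 0 ≤ B0 → 0 ≤ B2 → 0 ≤ B3 → 0 ≤ Bq →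
    TP ell K B0 p0 → TP ell K B2 p2 → TP ell K B3 p3 → TP ell K Bq q →
    ∃ c : (Fin 3 → ℤ) → Fin 3 → ℂ, (∀ (x : X3) (j : Fin 3),
      (∑ n ∈ Finset.Icc (fun _ : Fin 3 => -(K : ℤ)) (fun _ => (K : ℤ)), c n j *
        cexp (I * (dot (fun j => 2 * Real.pi / ell * (n j : ℝ)) x : ℂ))).re = vps b g p0 p2 p3 q x j) ∧
      ∑ n ∈ Finset.Icc (fun _ : Fin 3 => -(K : ℤ)) (fun _ => (K : ℤ)), ∑ j, ‖c n j‖ ^ 2 ≤
        g ^ 2 / 18 * (B0 * B3 * Bq) + b ^ 2 / 4 * (B2 * B0 * Bq)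

/-- CUR (uses: none).  The rotation of `vps`.
Proof: derivatives of products of functions of one coordinate. -/
def CurStmt : Prop :=
  ∀ (b g : ℝ) (p0 p2 p3 q : ℝ → ℝ), ContDiff ℝ (⊤ : ℕ∞) p0 → ContDiff ℝ (⊤ : ℕ∞) p2 → ContDiff ℝ (⊤ : ℕ∞) p3 →
    ContDiff ℝ (⊤ : ℕ∞) q → ∀ x : X3, curl (vps b g p0 p2 p3 q) x =
      ![-(b / 4) * (p2 (x 0) * deriv p0 (x 1) * q (x 2) + p0 (x 0) * deriv p2 (x 1) * q (x 2)) -
          g / 6 * (p3 (x 0) * p0 (x 1) * deriv q (x 2)),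
        -(g / 6) * (p0 (x 0) * p3 (x 1) * deriv q (x 2)) +
          b / 4 * (deriv p2 (x 0) * p0 (x 1) * q (x 2) + deriv p0 (x 0) * p2 (x 1) * q (x 2)),
        g / 6 * (deriv p3 (x 0) * p0 (x 1) * q (x 2) + p0 (x 0) * deriv p3 (x 1) * q (x 2))]

/-- BGA (uses: TRG, JFD, PRO, PSI, CUR).  The background field.
Proof: PRO with `n + 1` instead of `n` (`ell = L cut`), `b = et^(-4)`, `g = et^(-5)`, PSI with `p0 = p 0`, `p2 = p 2`,
`p3 = p 3`; the frequencies on the box satisfy `sq ≤ 3 (8 pi et^3)^2 < 1` for `et ≤ et1`; TRG gives `e` with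
`S.fld e x = curl (vps ..) x` and
`∑ w e^2 ≤ (2/alpha) ell^3 (g^2/18 B0 B3 Bq + b^2/4 B2 B0 Bq) ≤ C (g^2 et^(-3-21-3) l + b^2 et^(-3-15-3) l) ≤ C et^(-37) l`.
CUR and JFD (`n = 3` products, some may be `0`; the constants can be put into one factor): every jet is a sum of at most three
terms `const * p^(i) (0) p^(j) (0) q^(k) (z)`.  PRO: `p_m^(i) (0) = m! [i = m] + O(et^6)`, `q^(k) (z) = [k = 0] + O(et^6)`
(`iteratedDeriv i (deriv p) = iteratedDeriv (i+1) p`), so every product is its ideal value up to `C et^6`, and the ideal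
values sum to `idl` (check the three components: `-(b/4) 2 [p=0][q=1] [r=0]`, `(b/4) 2 [p=1][q=0][r=0]`,
`(g/6) 6 ([p=2][q=0] + [p=0][q=2]) [r=0]`); `g C et^6 ≤ C`. -/
def BgaStmt : Prop :=
  ∀ (alpha : ℝ) (n : ℕ), 0 < alpha → ∃ C et1 : ℝ, 0 < C ∧ 0 < et1 ∧ et1 ≤ 1 ∧
    ∀ (cut L : ℝ) (P : Polarization L) (et l : ℝ), 0 < cut → 0 < L → 0 < et → et ≤ et1 → 1 ≤ l →
      l * (et ^ 3)⁻¹ ≤ L * cut → ∃ e : Mode cut L → ℝ,
        (msys alpha P).Bg et l C (C * (et ^ 37)⁻¹ * l) n e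

/-! ## G. the theorem -/

/-- BMP (uses: none).  The cutoff function exists.
Proof: product of three one dimensional bump functions (`ContDiffBump` on `ℝ` with radii `1/2`, `1`, or
`Real.smoothTransition`); its derivative is bounded (continuous with compact support). -/
def BmpStmt : Prop := ∃ (bp : X3 → ℝ) (CB : ℝ), Bump bp CB

/-- PAR (uses: ALG, SEL, SCA, COR, GOD, BGA, BMP).  The upper bound for large cutoffs.
Proof: `del = min eps 1 / 40`, `M ≥ 3` with `(2M - 4) del ≥ 2/3` and `(4M - 37) del ≥ 1`; ALG, BMP; `n` of COR; `C1, et1` of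
BGA for this `n`; `K0` of GOD; COR with `K = max C1 K0` gives `C, et0` (`Good`, `Bg` are monotone in `K`).
`N = cut`, `et = N^(-del)`, `l = N^(1/3)`, `ell = L cut ≥ N ≥ l et^(-3)`, `cost = C1 et^(-37) l`.  `psi` of COR, rescaled by
SCA, in SEL: `A = cut^2 C^2 (l^(-2) + et^(2M-4) + (1 + cost) et^(4M))`, `B = cut C^2 l`,
`∑ om e^2 = cut ∑ w e^2 ≤ cut cost`; so `selfEnergy ≤ C' (cut^2 cut^(-2/3) + cut cut^(1/3) + cut cut^(1/3 + 37 del))`.
(`0 < II nsq` from `l et^4 ≤ C II nsq`.) -/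
def ParStmt : Prop :=
  ∀ eps alpha : ℝ, 0 < eps → 0 < alpha → ∃ C cut0 : ℝ, 0 < C ∧ 1 ≤ cut0 ∧ ∀ cut L : ℝ, cut0 ≤ cut → 1 ≤ L →
    ∀ (P : Polarization L) (D : Type) [NormedAddCommGroup D] [InnerProductSpace ℂ D]
      (F : Bosons (Mode cut L) D), selfEnergy alpha F P ≤ C * cut ^ (4 / 3 + eps)

/-- FIN (uses: PAR).  The theorem.
Proof: for `cut ≤ cut0` use `Helper49_Pauli.upper` (exponent `46/31`; `cut^(46/31) ≤ cut0^(46/31)`), which also gives
`0 ≤ selfEnergy`. -/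
def FinStmt : Prop := ∀ eps : ℝ, 0 < eps → UpperStatement (4 / 3 + eps)

end Pool.Agent.FTU
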